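import Pool.Agent.R215.HS.Strip

set_option autoImplicit false
open MeasureTheory Filter Topology Set Metric

/-! Cut-off of the weights and the representation formula for the weights. -/

namespace Pool.Agent.R215.HS

open Pool.Agent.H314.Dir

variable {k : ℕ}

/-- cut-off weight as a function of `r = |x - c|²` -/
noncomputable def gc (ρ : ℝ) (m : ℕ) (ε : ℝ) (r : ℝ) : ℝ :=
  ((ρ + r) ^ m)⁻¹ * (max 0 (1 - ε * r)) ^ 3

noncomputable def gc' (ρ : ℝ) (m : ℕ) (ε : ℝ) (r : ℝ) : ℝ :=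
  -(m * ((ρ + r) ^ (m + 1))⁻¹) * (max 0 (1 - ε * r)) ^ 3 +
    ((ρ + r) ^ m)⁻¹ * (-(3 * ε * (max 0 (1 - ε * r)) ^ 2))

noncomputable def gc'' (ρ : ℝ) (m : ℕ) (ε : ℝ) (r : ℝ) : ℝ :=
  m * (m + 1) * ((ρ + r) ^ (m + 2))⁻¹ * (max 0 (1 - ε * r)) ^ 3 +
    2 * (-(m * ((ρ + r) ^ (m + 1))⁻¹) * (-(3 * ε * (max 0 (1 - ε * r)) ^ 2))) +
    ((ρ + r) ^ m)⁻¹ * (6 * ε ^ 2 * max 0 (1 - ε * r))

theorem hasDerivAt_inv_pow {ρ r : ℝ} (h : 0 < ρ + r) (m : ℕ) :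
    HasDerivAt (fun r : ℝ => ((ρ + r) ^ m)⁻¹) (-(m * ((ρ + r) ^ (m + 1))⁻¹)) r := by
  have h1 : HasDerivAt (fun r : ℝ => ρ + r) 1 r := (hasDerivAt_id r).const_add ρ
  have h2 := (h1.pow m).inv (pow_pos h m).ne'
  have e : -(m * ((ρ + r) ^ (m + 1))⁻¹) = -(m * (ρ + r) ^ (m - 1) * 1) / ((ρ + r) ^ m) ^ 2 := by
    rcases Nat.eq_zero_or_pos m with h | h
    · subst h; simp
    · obtain ⟨n, rfl⟩ : ∃ n, m = n + 1 := ⟨m - 1, by omega⟩
      rw [Nat.add_sub_cancel]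
      have h3 : (ρ + r) ≠ 0 := h1.differentiableAt.continuousAt |> fun _ => by positivity
      field_simp
      ring
  rw [e]
  exact h2

theorem hasDerivAt_cut3 (ε r : ℝ) :
    HasDerivAt (fun r : ℝ => (max 0 (1 - ε * r)) ^ 3) (-(3 * ε * (max 0 (1 - ε * r)) ^ 2)) r := by
  have h1 : HasDerivAt (fun r : ℝ => 1 - ε * r) (-ε) r := by
    simpa using ((hasDerivAt_id r).const_mul ε).const_sub 1
  have h2 := (hasDerivAt_maxpow 1 (1 - ε * r)).comp r h1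
  refine h2.congr_deriv ?_
  norm_num
  ring

theorem hasDerivAt_cut2 (ε r : ℝ) :
    HasDerivAt (fun r : ℝ => -(3 * ε * (max 0 (1 - ε * r)) ^ 2)) (6 * ε ^ 2 * max 0 (1 - ε * r)) r := by
  have h1 : HasDerivAt (fun r : ℝ => 1 - ε * r) (-ε) r := by
    simpa using ((hasDerivAt_id r).const_mul ε).const_sub 1
  have h2 := (((hasDerivAt_maxpow 0 (1 - ε * r)).comp r h1).const_mul (3 * ε)).neg
  refine h2.congr_deriv ?_
  norm_num
  ring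

theorem hasDerivAt_gc {ρ r : ℝ} (h : 0 < ρ + r) (m : ℕ) (ε : ℝ) :
    HasDerivAt (gc ρ m ε) (gc' ρ m ε r) r :=
  (hasDerivAt_inv_pow h m).mul (hasDerivAt_cut3 ε r)

theorem hasDerivAt_gc' {ρ r : ℝ} (h : 0 < ρ + r) (m : ℕ) (ε : ℝ) :
    HasDerivAt (gc' ρ m ε) (gc'' ρ m ε r) r := by
  have h1 := ((hasDerivAt_inv_pow h (m + 1)).const_mul (m : ℝ)).neg.mul (hasDerivAt_cut3 ε r)
  have h2 := (hasDerivAt_inv_pow h m).mul (hasDerivAt_cut2 ε r)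
  refine (h1.add h2).congr_deriv ?_
  unfold gc''
  simp only [Pi.neg_apply]
  push_cast
  ring

/-- cut-off weight -/
noncomputable def Gc (c : Eu k) (ρ : ℝ) (m : ℕ) (ε : ℝ) (x : Eu k) : ℝ := gc ρ m ε (‖x - c‖ ^ 2)

theorem Gc_eq (c : Eu k) (ρ : ℝ) (m : ℕ) (ε : ℝ) (x : Eu k) :
    Gc c ρ m ε x = en c ρ m x * (max 0 (1 - ε * ‖x - c‖ ^ 2)) ^ 3 := rfl

theorem contDiff_Gc (c : Eu k) {ρ : ℝ} (hρ : 0 < ρ) (m : ℕ) (ε : ℝ) :
    ContDiff ℝ 2 (Gc c ρ m ε) := by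
  have h0 : ContDiff ℝ 2 (fun x : Eu k => ‖x - c‖ ^ 2) :=
    (contDiff_norm_sq ℝ).comp (contDiff_id.sub contDiff_const)
  have h1 : ContDiff ℝ 2 (fun x : Eu k => ((ρ + ‖x - c‖ ^ 2) ^ m)⁻¹) := by
    refine ((contDiff_const.add h0).pow m).inv fun x => ?_
    exact (pow_pos (base_pos c hρ x) m).ne'
  have h2 : ContDiff ℝ 2 (fun x : Eu k => (max 0 (1 - ε * ‖x - c‖ ^ 2)) ^ 3) := by
    have h3 : ContDiff ℝ 2 (fun x : Eu k => 1 - ε * ‖x - c‖ ^ 2) :=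
      contDiff_const.sub (contDiff_const.mul h0)
    have := (contDiff_maxpow 2).comp h3
    exact this
  exact h1.mul h2

theorem cs_Gc (c : Eu k) (ρ : ℝ) (m : ℕ) {ε : ℝ} (hε : 0 < ε) :
    HasCompactSupport (Gc c ρ m ε) := by
  refine HasCompactSupport.intro (isCompact_closedBall c (Real.sqrt (1 / ε))) fun x hx => ?_
  rw [mem_closedBall, dist_eq_norm, not_le] at hx
  rw [Gc_eq, max_eq_left, zero_pow (by norm_num), mul_zero]
  have h1 : 1 / ε < ‖x - c‖ ^ 2 := by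
    rw [Real.sqrt_lt' (lt_of_le_of_lt (Real.sqrt_nonneg _) hx)] at hx
    exact hx
  rw [div_lt_iff₀ hε] at h1
  linarith

theorem lap_Gc (c : Eu k) {ρ : ℝ} (hρ : 0 < ρ) (m : ℕ) (ε : ℝ) (x : Eu k) :
    lap (Gc c ρ m ε) x = 4 * ‖x - c‖ ^ 2 * gc'' ρ m ε (‖x - c‖ ^ 2) +
      2 * k * gc' ρ m ε (‖x - c‖ ^ 2) := by
  refine lap_radial (g := gc ρ m ε) (g' := gc' ρ m ε) (g'' := gc'' ρ m ε) c x ?_ ?_ ?_
  · have : ∀ᶠ r in 𝓝 (‖x - c‖ ^ 2), 0 < ρ + r := by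
      have h1 : ContinuousAt (fun r : ℝ => ρ + r) (‖x - c‖ ^ 2) := by fun_prop
      exact h1.eventually_const_lt (base_pos c hρ x)
    filter_upwards [this] with r hr
    exact hasDerivAt_gc hr m ε
  · exact hasDerivAt_gc' (base_pos c hρ x) m ε
  · exact (contDiff_Gc c hρ m ε).contDiffAt

/-- domination constant -/
noncomputable def Cb (k : ℕ) (ρ : ℝ) (m : ℕ) : ℝ :=
  4 * m * (m + 1) * ρ⁻¹ + 24 * m + 24 + 2 * k * (m * ρ⁻¹ + 3)

theorem Cb_nonneg (k : ℕ) {ρ : ℝ} (hρ : 0 < ρ) (m : ℕ) : 0 ≤ Cb k ρ m := by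
  unfold Cb; positivity

theorem lap_Gc_bound (c : Eu k) {ρ : ℝ} (hρ : 0 < ρ) (m : ℕ) {ε : ℝ} (hε : 0 < ε) (hε1 : ε ≤ 1)
    (x : Eu k) : |lap (Gc c ρ m ε) x| ≤ Cb k ρ m * en c ρ m x := by
  rw [lap_Gc c hρ]
  set r := ‖x - c‖ ^ 2 with hr
  have hr0 : 0 ≤ r := by positivity
  have hb : 0 < ρ + r := by linarith
  set y := (ρ + r)⁻¹ with hy
  have hy0 : 0 < y := by positivity
  have hyρ : y ≤ ρ⁻¹ := inv_anti₀ hρ (by linarith)
  have hry : r * y ≤ 1 := by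
    rw [hy, ← div_eq_mul_inv, div_le_one hb]
    linarith
  set E := en c ρ m x with hE
  have hE0 : 0 < E := en_pos c hρ m x
  have e0 : ((ρ + r) ^ m)⁻¹ = E := rfl
  have e1 : ((ρ + r) ^ (m + 1))⁻¹ = y * E := by rw [← e0, pow_succ, mul_inv, mul_comm]
  have e2 : ((ρ + r) ^ (m + 2))⁻¹ = y * (y * E) := by
    rw [← e1, show m + 2 = m + 1 + 1 by ring, pow_succ, mul_inv, mul_comm]
  set θ := max 0 (1 - ε * r) with hθ
  have hθ0 : 0 ≤ θ := le_max_left _ _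
  have hθ1 : θ ≤ 1 := max_le zero_le_one (by nlinarith)
  have hrθ : ε * (r * θ) ≤ 1 := by
    rcases le_total (1 - ε * r) 0 with h | h
    · rw [hθ, max_eq_left h]; simp
    · have h1 : ε * r ≤ 1 := by linarith
      have h2 : 0 ≤ ε * r := by positivity
      calc ε * (r * θ) = (ε * r) * θ := by ring
        _ ≤ 1 * 1 := mul_le_mul h1 hθ1 hθ0 zero_le_one
        _ = 1 := one_mul 1
  have hθ2 : θ ^ 2 ≤ 1 := pow_le_one₀ hθ0 hθ1
  have hθ3 : θ ^ 3 ≤ 1 := pow_le_one₀ hθ0 hθ1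
  have hm0 : (0 : ℝ) ≤ m := Nat.cast_nonneg m
  have hk0 : (0 : ℝ) ≤ k := Nat.cast_nonneg k
  unfold gc' gc''
  rw [e0, e1, e2]
  simp only [← hθ]
  -- the five terms
  have t1 : 0 ≤ 4 * r * (m * (m + 1) * (y * (y * E)) * θ ^ 3) := by positivity
  have t1' : 4 * r * (m * (m + 1) * (y * (y * E)) * θ ^ 3) ≤ 4 * m * (m + 1) * ρ⁻¹ * E := by
    have h1 : (r * y) * (y * θ ^ 3) ≤ 1 * (ρ⁻¹ * 1) :=
      mul_le_mul hry (mul_le_mul hyρ hθ3 (by positivity) (by positivity)) (by positivity) zero_le_one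
    calc 4 * r * (m * (m + 1) * (y * (y * E)) * θ ^ 3)
        = 4 * m * (m + 1) * E * ((r * y) * (y * θ ^ 3)) := by ring
      _ ≤ 4 * m * (m + 1) * E * (1 * (ρ⁻¹ * 1)) := mul_le_mul_of_nonneg_left h1 (by positivity)
      _ = _ := by ring
  have t2 : 0 ≤ 4 * r * (2 * (m * (y * E) * (3 * ε * θ ^ 2))) := by positivity
  have t2' : 4 * r * (2 * (m * (y * E) * (3 * ε * θ ^ 2))) ≤ 24 * m * E := by
    have h1 : (r * y) * (ε * θ ^ 2) ≤ 1 * (1 * 1) :=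
      mul_le_mul hry (mul_le_mul hε1 hθ2 (by positivity) zero_le_one) (by positivity) zero_le_one
    calc 4 * r * (2 * (m * (y * E) * (3 * ε * θ ^ 2)))
        = 24 * m * E * ((r * y) * (ε * θ ^ 2)) := by ring
      _ ≤ 24 * m * E * (1 * (1 * 1)) := mul_le_mul_of_nonneg_left h1 (by positivity)
      _ = _ := by ring
  have t3 : 0 ≤ 4 * r * (E * (6 * ε ^ 2 * θ)) := by positivity
  have t3' : 4 * r * (E * (6 * ε ^ 2 * θ)) ≤ 24 * E := by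
    have h1 : ε * (ε * (r * θ)) ≤ 1 * 1 := mul_le_mul hε1 hrθ (by positivity) zero_le_one
    calc 4 * r * (E * (6 * ε ^ 2 * θ)) = 24 * E * (ε * (ε * (r * θ))) := by ring
      _ ≤ 24 * E * (1 * 1) := mul_le_mul_of_nonneg_left h1 (by positivity)
      _ = _ := by ring
  have t4 : 0 ≤ 2 * k * (m * (y * E) * θ ^ 3) := by positivity
  have t4' : 2 * k * (m * (y * E) * θ ^ 3) ≤ 2 * k * (m * ρ⁻¹) * E := by
    have h1 : y * θ ^ 3 ≤ ρ⁻¹ * 1 := mul_le_mul hyρ hθ3 (by positivity) (by positivity)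
    calc 2 * k * (m * (y * E) * θ ^ 3) = 2 * k * m * E * (y * θ ^ 3) := by ring
      _ ≤ 2 * k * m * E * (ρ⁻¹ * 1) := mul_le_mul_of_nonneg_left h1 (by positivity)
      _ = _ := by ring
  have t5 : 0 ≤ 2 * k * (E * (3 * ε * θ ^ 2)) := by positivity
  have t5' : 2 * k * (E * (3 * ε * θ ^ 2)) ≤ 2 * k * 3 * E := by
    have h1 : ε * θ ^ 2 ≤ 1 * 1 := mul_le_mul hε1 hθ2 (by positivity) zero_le_one
    calc 2 * k * (E * (3 * ε * θ ^ 2)) = 6 * k * E * (ε * θ ^ 2) := by ring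
      _ ≤ 6 * k * E * (1 * 1) := mul_le_mul_of_nonneg_left h1 (by positivity)
      _ = _ := by ring
  unfold Cb
  rw [abs_le]
  constructor <;> nlinarith

/-- the limit of the Laplacians -/
noncomputable def Len (c : Eu k) (ρ : ℝ) (m : ℕ) (x : Eu k) : ℝ :=
  2 * m * (2 * m + 2 - k) * en c ρ (m + 1) x - 4 * m * (m + 1) * ρ * en c ρ (m + 2) x

theorem tendsto_lap_Gc (c : Eu k) {ρ : ℝ} (hρ : 0 < ρ) (m : ℕ) (x : Eu k) {ε : ℕ → ℝ}
    (hε : Tendsto ε atTop (𝓝 0)) :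
    Tendsto (fun n => lap (Gc c ρ m (ε n)) x) atTop (𝓝 (Len c ρ m x)) := by
  simp only [lap_Gc c hρ]
  set r := ‖x - c‖ ^ 2 with hr
  have hb : 0 < ρ + r := base_pos c hρ x
  have hc : Continuous fun e : ℝ => 4 * r * gc'' ρ m e r + 2 * k * gc' ρ m e r := by
    unfold gc'' gc'
    fun_prop
  have h := (hc.tendsto 0).comp hε
  have e : 4 * r * gc'' ρ m 0 r + 2 * k * gc' ρ m 0 r = Len c ρ m x := by
    unfold gc'' gc' Len
    have e0 : ((ρ + r) ^ m)⁻¹ = en c ρ m x := rfl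
    have e1 : ((ρ + r) ^ (m + 1))⁻¹ = en c ρ (m + 1) x := rfl
    have e2 : ((ρ + r) ^ (m + 2))⁻¹ = en c ρ (m + 2) x := rfl
    have e3 : en c ρ (m + 1) x = (ρ + r) * en c ρ (m + 2) x := by
      rw [show m + 2 = m + 1 + 1 by ring, en_succ c ρ (m + 1) x, ← hr]
      field_simp
    rw [e0, e1, e2, e3]
    norm_num
    ring
  rw [← e]
  exact h

theorem tendsto_Gc (c : Eu k) {ρ : ℝ} (m : ℕ) (x : Eu k) {ε : ℕ → ℝ}
    (hε : Tendsto ε atTop (𝓝 0)) :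
    Tendsto (fun n => Gc c ρ m (ε n) x) atTop (𝓝 (en c ρ m x)) := by
  have hc : Continuous fun e : ℝ => en c ρ m x * (max 0 (1 - e * ‖x - c‖ ^ 2)) ^ 3 := by fun_prop
  have h := (hc.tendsto 0).comp hε
  have e : en c ρ m x * (max 0 (1 - 0 * ‖x - c‖ ^ 2)) ^ 3 = en c ρ m x := by norm_num
  rw [e] at h
  exact h

theorem Gc_bound (c : Eu k) {ρ : ℝ} (hρ : 0 < ρ) (m : ℕ) {ε : ℝ} (hε : 0 < ε)
    (x : Eu k) : |Gc c ρ m ε x| ≤ en c ρ m x := by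
  rw [Gc_eq]
  have h0 := en_pos c hρ m x
  have h1 : 0 ≤ max 0 (1 - ε * ‖x - c‖ ^ 2) := le_max_left _ _
  have h2 : max 0 (1 - ε * ‖x - c‖ ^ 2) ≤ 1 := by
    apply max_le zero_le_one
    have : 0 ≤ ε * ‖x - c‖ ^ 2 := by positivity
    linarith
  have h3 : (max 0 (1 - ε * ‖x - c‖ ^ 2)) ^ 3 ≤ 1 := pow_le_one₀ h1 h2
  rw [abs_of_nonneg (by positivity)]
  nlinarith

end Pool.Agent.R215.HS
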