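import Pool.Agent.R215.HS.Cut

set_option autoImplicit false
open MeasureTheory Filter Topology Set Metric

/-! The representation formula for the weighted averages. -/

namespace Pool.Agent.R215.HS

open Pool.Agent.H314.Dir

variable {k : ℕ}

/-- the weighted average of `h(·, t)` -/
noncomputable def Fh (c : Eu k) (h : Eu k → ℝ → ℝ) (m : ℕ) (ρ t : ℝ) : ℝ :=
  Av c (fun x => h x t) m ρ

/-- the average against the Laplacian of the weight -/
noncomputable def LF (c : Eu k) (h : Eu k → ℝ → ℝ) (m : ℕ) (ρ t : ℝ) : ℝ :=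
  2 * m * (2 * m + 2 - k) * Fh c h (m + 1) ρ t - 4 * m * (m + 1) * ρ * Fh c h (m + 2) ρ t

theorem Fh_eq (c : Eu k) (h : Eu k → ℝ → ℝ) (m : ℕ) (ρ t : ℝ) :
    Fh c h m ρ t = ∫ x, en c ρ m x * h x t := rfl

theorem cont_Fh {h : Eu k → ℝ → ℝ} (hs : Strip h) (c : Eu k) {m : ℕ} (hm : k < 2 * m) {ρ : ℝ}
    (hρ : 0 < ρ) : Continuous (Fh c h m ρ) := hs.cont_F (integrable_en c hρ hm)

theorem cont_LF {h : Eu k → ℝ → ℝ} (hs : Strip h) (c : Eu k) {m : ℕ} (hm : k < 2 * m) {ρ : ℝ}
    (hρ : 0 < ρ) : Continuous (LF c h m ρ) := by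
  unfold LF
  exact (continuous_const.mul (cont_Fh hs c (by omega) hρ)).sub
    (continuous_const.mul (cont_Fh hs c (by omega) hρ))

theorem integrable_Len (c : Eu k) {m : ℕ} (hm : k < 2 * m) {ρ : ℝ} (hρ : 0 < ρ) :
    Integrable (Len c ρ m) :=
  ((integrable_en c hρ (by omega)).const_mul _).sub ((integrable_en c hρ (by omega)).const_mul _)

theorem int_Len {h : Eu k → ℝ → ℝ} (hs : Strip h) (c : Eu k) {m : ℕ} (hm : k < 2 * m) {ρ : ℝ}
    (hρ : 0 < ρ) (t : ℝ) : ∫ x, Len c ρ m x * h x t = LF c h m ρ t := by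
  unfold LF
  rw [Fh_eq, Fh_eq, ← integral_const_mul, ← integral_const_mul, ← integral_sub]
  · refine integral_congr_ae (Eventually.of_forall fun x => ?_)
    simp only [Len]
    ring
  · exact (hs.int (integrable_en c hρ (by omega)) t).const_mul _
  · exact (hs.int (integrable_en c hρ (by omega)) t).const_mul _

theorem formula {h : Eu k → ℝ → ℝ} (hs : Strip h) (c : Eu k) {m : ℕ} (hm : k < 2 * m) {ρ : ℝ}
    (hρ : 0 < ρ) : ∃ β : ℝ, ∀ t, 0 ≤ t → Fh c h m ρ t = β * Real.sin t - Du (LF c h m ρ) t := by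
  set ε : ℕ → ℝ := fun n => 1 / ((n : ℝ) + 1) with hε
  have hε0 : ∀ n, 0 < ε n := fun n => by simp only [hε]; positivity
  have hε1 : ∀ n, ε n ≤ 1 := fun n => by
    simp only [hε]
    rw [div_le_one (by positivity)]
    have : (0 : ℝ) ≤ n := Nat.cast_nonneg n
    linarith
  have hεt : Tendsto ε atTop (𝓝 0) := tendsto_one_div_add_atTop_nhds_zero_nat
  have hiE := integrable_en c hρ hm
  have hex : ∀ n, ∃ β : ℝ, ∀ t, 0 ≤ t → ∫ x, Gc c ρ m (ε n) x * h x t =
      β * Real.sin t - Du (fun s => ∫ x, lap (Gc c ρ m (ε n)) x * h x s) t := fun n =>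
    formula_cs hs (contDiff_Gc c hρ m (ε n)) (cs_Gc c ρ m (hε0 n))
  choose β hβ using hex
  -- limits
  have hL1 : ∀ t, Tendsto (fun n => ∫ x, Gc c ρ m (ε n) x * h x t) atTop (𝓝 (Fh c h m ρ t)) := by
    intro t
    obtain ⟨M, hM0, hM⟩ := hs.bdd t
    rw [Fh_eq]
    refine tendsto_integral_of_dominated_convergence (fun x => en c ρ m x * M) ?_
      (hiE.mul_const M) ?_ ?_
    · intro n
      exact ((contDiff_Gc c hρ m (ε n)).continuous.mul (hs.contx t)).aestronglyMeasurable
    · intro n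
      refine Eventually.of_forall fun x => ?_
      rw [norm_mul, Real.norm_eq_abs, Real.norm_eq_abs]
      exact mul_le_mul (Gc_bound c hρ m (hε0 n) x) (hM x t le_rfl) (abs_nonneg _)
        (en_pos c hρ m x).le
    · exact Eventually.of_forall fun x => (tendsto_Gc c m x hεt).mul_const _
  have hlapc : ∀ n, Continuous (lap (Gc c ρ m (ε n))) := by
    intro n
    have e : lap (Gc c ρ m (ε n)) = fun x => ∑ i : Fin k, iteratedFDeriv ℝ 2 (Gc c ρ m (ε n)) x
        (fun _ => EuclideanSpace.single i (1 : ℝ)) := rfl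
    rw [e]
    refine continuous_finsetSum _ fun i _ => ?_
    have h2 : Continuous (iteratedFDeriv ℝ 2 (Gc c ρ m (ε n))) :=
      (contDiff_Gc c hρ m (ε n)).continuous_iteratedFDeriv (by norm_num)
    exact (ContinuousMultilinearMap.apply ℝ (fun _ : Fin 2 => Eu k) ℝ
      (fun _ => EuclideanSpace.single i (1 : ℝ))).continuous.comp h2
  have hL2 : ∀ t, Tendsto (fun n => ∫ x, lap (Gc c ρ m (ε n)) x * h x t) atTop
      (𝓝 (LF c h m ρ t)) := by
    intro t
    obtain ⟨M, hM0, hM⟩ := hs.bdd t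
    rw [← int_Len hs c hm hρ]
    refine tendsto_integral_of_dominated_convergence (fun x => Cb k ρ m * en c ρ m x * M) ?_
      ((hiE.const_mul _).mul_const M) ?_ ?_
    · intro n
      exact ((hlapc n).mul (hs.contx t)).aestronglyMeasurable
    · intro n
      refine Eventually.of_forall fun x => ?_
      rw [norm_mul, Real.norm_eq_abs, Real.norm_eq_abs]
      exact mul_le_mul (lap_Gc_bound c hρ m (hε0 n) (hε1 n) x) (hM x t le_rfl) (abs_nonneg _)
        (mul_nonneg (Cb_nonneg k hρ m) (en_pos c hρ m x).le)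
    · exact Eventually.of_forall fun x => (tendsto_lap_Gc c hρ m x hεt).mul_const _
  have hilap : ∀ n, Integrable (lap (Gc c ρ m (ε n))) := by
    intro n
    refine (hiE.const_mul (Cb k ρ m)).mono' (hlapc n).aestronglyMeasurable
      (Eventually.of_forall fun x => ?_)
    exact lap_Gc_bound c hρ m (hε0 n) (hε1 n) x
  have hL3 : ∀ t, 0 ≤ t → Tendsto
      (fun n => Du (fun s => ∫ x, lap (Gc c ρ m (ε n)) x * h x s) t) atTop
      (𝓝 (Du (LF c h m ρ) t)) := by
    intro t ht
    obtain ⟨M, hM0, hM⟩ := hs.bdd t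
    unfold Du
    refine intervalIntegral.tendsto_integral_filter_of_dominated_convergence
      (fun _ => Cb k ρ m * Yf c m ρ * M) ?_ ?_ ?_ ?_
    · refine Eventually.of_forall fun n => ?_
      have hcF : Continuous fun s => ∫ x, lap (Gc c ρ m (ε n)) x * h x s := hs.cont_F (hilap n)
      exact ((by fun_prop : Continuous fun s => Real.sin (t - s)).mul hcF).aestronglyMeasurable
    · refine Eventually.of_forall fun n => Eventually.of_forall fun s hsm => ?_
      rw [uIoc_of_le ht] at hsm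
      rw [norm_mul, Real.norm_eq_abs]
      have h1 : ‖∫ x, lap (Gc c ρ m (ε n)) x * h x s‖ ≤ Cb k ρ m * Yf c m ρ * M := by
        have h2 : ‖∫ x, lap (Gc c ρ m (ε n)) x * h x s‖ ≤ ∫ x, Cb k ρ m * en c ρ m x * M := by
          refine norm_integral_le_of_norm_le ((hiE.const_mul _).mul_const M)
            (Eventually.of_forall fun x => ?_)
          rw [norm_mul, Real.norm_eq_abs, Real.norm_eq_abs]
          exact mul_le_mul (lap_Gc_bound c hρ m (hε0 n) (hε1 n) x) (hM x s hsm.2) (abs_nonneg _)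
            (mul_nonneg (Cb_nonneg k hρ m) (en_pos c hρ m x).le)
        rw [integral_mul_const, integral_const_mul, ← Yf_eq] at h2
        exact h2
      have h3 := Real.abs_sin_le_one (t - s)
      calc |Real.sin (t - s)| * ‖∫ x, lap (Gc c ρ m (ε n)) x * h x s‖
          ≤ 1 * ‖∫ x, lap (Gc c ρ m (ε n)) x * h x s‖ :=
            mul_le_mul_of_nonneg_right h3 (norm_nonneg _)
        _ ≤ _ := by rw [one_mul]; exact h1
    · exact intervalIntegrable_const
    · exact Eventually.of_forall fun s _ => (hL2 s).const_mul _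
  -- convergence of `β`
  have hL4 : ∀ t, 0 ≤ t → Tendsto (fun n => β n * Real.sin t) atTop
      (𝓝 (Fh c h m ρ t + Du (LF c h m ρ) t)) := by
    intro t ht
    have h1 := (hL1 t).add (hL3 t ht)
    refine h1.congr fun n => ?_
    rw [hβ n t ht]
    ring
  have hpi : (0 : ℝ) ≤ Real.pi / 2 := by positivity
  have hβl : Tendsto β atTop (𝓝 (Fh c h m ρ (Real.pi / 2) + Du (LF c h m ρ) (Real.pi / 2))) := by
    have := hL4 _ hpi
    simpa [Real.sin_pi_div_two] using this
  refine ⟨Fh c h m ρ (Real.pi / 2) + Du (LF c h m ρ) (Real.pi / 2), fun t ht => ?_⟩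
  have h1 := hβl.mul_const (Real.sin t)
  have h2 := tendsto_nhds_unique h1 (hL4 t ht)
  linarith

/-- the coefficient of the sine -/
noncomputable def Qf (c : Eu k) (h : Eu k → ℝ → ℝ) (m : ℕ) (ρ : ℝ) : ℝ :=
  Fh c h m ρ (Real.pi / 2) + Du (LF c h m ρ) (Real.pi / 2)

theorem formulaQ {h : Eu k → ℝ → ℝ} (hs : Strip h) (c : Eu k) {m : ℕ} (hm : k < 2 * m) {ρ : ℝ}
    (hρ : 0 < ρ) {t : ℝ} (ht : 0 ≤ t) :
    Fh c h m ρ t = Qf c h m ρ * Real.sin t - Du (LF c h m ρ) t := by
  obtain ⟨β, hβ⟩ := formula hs c hm hρ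
  have h1 := hβ (Real.pi / 2) (by positivity)
  rw [Real.sin_pi_div_two, mul_one] at h1
  have h2 : Qf c h m ρ = β := by
    unfold Qf
    linarith
  rw [h2]
  exact hβ t ht

end Pool.Agent.R215.HS
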