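import Pool.Agent.R215.HS.Weier
import Pool.Agent.H52R3.EpiMain

set_option autoImplicit false
open MeasureTheory Filter Topology Set Metric

/-! From the half-space problem to `Strip`. -/

namespace Pool.Agent.R215.HS

open Pool.Agent.H314.Dir

variable {k : ℕ}

/-- the point `(x, t)` -/
noncomputable def Jp (x : Eu k) (t : ℝ) : Eu (k + 1) :=
  WithLp.toLp 2 (Fin.snoc (α := fun _ => ℝ) x.ofLp t)

@[simp] theorem Jp_last (x : Eu k) (t : ℝ) : (Jp x t).ofLp (Fin.last k) = t := by
  unfold Jp; simp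

@[simp] theorem Jp_castSucc (x : Eu k) (t : ℝ) (i : Fin k) :
    (Jp x t).ofLp (Fin.castSucc i) = x.ofLp i := by
  unfold Jp; simp

theorem Jp_surj (X : Eu (k + 1)) :
    X = Jp (WithLp.toLp 2 fun i => X.ofLp (Fin.castSucc i)) (X.ofLp (Fin.last k)) := by
  ext i
  refine Fin.lastCases ?_ (fun j => ?_) i
  · simp
  · simp

theorem Jp_add_x (x : Eu k) (t s : ℝ) (i : Fin k) :
    Jp (x + s • (EuclideanSpace.single i (1 : ℝ) : Eu k)) t =
      Jp x t + s • (EuclideanSpace.single (Fin.castSucc i) (1 : ℝ) : Eu (k + 1)) := by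
  ext j
  refine Fin.lastCases ?_ (fun j => ?_) j
  · have : Fin.last k ≠ Fin.castSucc i := (Fin.castSucc_lt_last i).ne'
    simp [this]
  · simp

theorem Jp_add_t (x : Eu k) (t s : ℝ) :
    Jp x (t + s) = Jp x t + s • (EuclideanSpace.single (Fin.last k) (1 : ℝ) : Eu (k + 1)) := by
  ext j
  refine Fin.lastCases ?_ (fun j => ?_) j
  · simp
  · have : Fin.castSucc j ≠ Fin.last k := (Fin.castSucc_lt_last j).ne
    simp [this]

theorem contDiff_Jp {n : WithTop ℕ∞} : ContDiff ℝ n (fun p : Eu k × ℝ => Jp p.1 p.2) := by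
  rw [contDiff_euclidean]
  intro i
  refine Fin.lastCases ?_ (fun j => ?_) i
  · simp only [Jp_last]
    exact contDiff_snd
  · simp only [Jp_castSucc]
    have h1 : ContDiff ℝ n (fun x : Eu k => x.ofLp j) := by fun_prop
    exact h1.comp contDiff_fst

theorem continuous_Jp : Continuous (fun p : Eu k × ℝ => Jp p.1 p.2) :=
  (contDiff_Jp (n := 0)).continuous

theorem hasDerivAt_Jp (x : Eu k) (t : ℝ) :
    HasDerivAt (fun s => Jp x s) (EuclideanSpace.single (Fin.last k) (1 : ℝ) : Eu (k + 1)) t := by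
  have h1 : (fun s => Jp x s) = fun s => Jp x 0 +
      s • (EuclideanSpace.single (Fin.last k) (1 : ℝ) : Eu (k + 1)) := by
    funext s
    rw [← Jp_add_t, zero_add]
  rw [h1]
  simpa using ((hasDerivAt_id t).smul_const
    (EuclideanSpace.single (Fin.last k) (1 : ℝ) : Eu (k + 1))).const_add (Jp x 0)

/-- the open upper half-space -/
def Up (k : ℕ) : Set (Eu (k + 1)) := {X | 0 < X.ofLp (Fin.last k)}

theorem isOpen_Up : IsOpen (Up k) := by
  have : Continuous fun X : Eu (k + 1) => X.ofLp (Fin.last k) := by fun_prop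
  exact isOpen_lt continuous_const this

theorem Jp_mem_Up {x : Eu k} {t : ℝ} (ht : 0 < t) : Jp x t ∈ Up k := by
  show 0 < (Jp x t).ofLp (Fin.last k)
  rw [Jp_last]
  exact ht

/-- the difference with `1 - cos t`, extended by `0` -/
noncomputable def hd (u : Eu (k + 1) → ℝ) (x : Eu k) (t : ℝ) : ℝ :=
  u (Jp x (max t 0)) - (1 - Real.cos (max t 0))

theorem hd_of_pos (u : Eu (k + 1) → ℝ) (x : Eu k) {t : ℝ} (ht : 0 ≤ t) :
    hd u x t = u (Jp x t) - (1 - Real.cos t) := by
  unfold hd; rw [max_eq_left ht]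

theorem strip_hd {u : Eu (k + 1) → ℝ} (hC : ContDiffOn ℝ 2 u {X | 0 < X.ofLp (Fin.last k)})
    (hcont : ContinuousOn u {X | 0 ≤ X.ofLp (Fin.last k)})
    (heq : ∀ X : Eu (k + 1), 0 < X.ofLp (Fin.last k) → -(Laplacian.laplacian u X) = u X - 1)
    (hbd : ∀ X : Eu (k + 1), X.ofLp (Fin.last k) = 0 → u X = 0)
    (hH : ∀ M : ℝ, 0 < M → ∃ C : ℝ, ∀ X : Eu (k + 1), 0 ≤ X.ofLp (Fin.last k) →
      X.ofLp (Fin.last k) ≤ M → 0 ≤ u X ∧ u X ≤ C) : Strip (hd u) where
  cont := by
    unfold hd
    have h1 : Continuous fun p : Eu k × ℝ => Jp p.1 (max p.2 0) :=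
      continuous_Jp.comp (continuous_fst.prodMk (continuous_snd.max continuous_const))
    have h2 : Continuous fun p : Eu k × ℝ => u (Jp p.1 (max p.2 0)) :=
      hcont.comp_continuous h1 fun p => by simp
    have h3 : Continuous fun p : Eu k × ℝ => Real.cos (max p.2 0) :=
      Real.continuous_cos.comp (continuous_snd.max continuous_const)
    exact h2.sub (continuous_const.sub h3)
  zero := by
    intro x t ht
    unfold hd
    rw [max_eq_right ht, hbd _ (Jp_last x 0), Real.cos_zero]
    norm_num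
  bdd := by
    intro T
    obtain ⟨C, hC⟩ := hH (max T 1) (lt_max_of_lt_right one_pos)
    refine ⟨|C| + 2, by positivity, fun x t ht => ?_⟩
    have h1 := hC (Jp x (max t 0)) (by simp) (by
      rw [Jp_last]
      exact max_le_max ht zero_le_one)
    unfold hd
    have h2 := Real.neg_one_le_cos (max t 0)
    have h3 := Real.cos_le_one (max t 0)
    have h4 := le_abs_self C
    rw [abs_le]
    constructor <;> linarith [h1.1, h1.2, abs_nonneg C]
  smooth := by
    intro t ht
    rw [contDiff_iff_contDiffAt]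
    intro x
    have h1 : ContDiffAt ℝ 2 u (Jp x t) :=
      hC.contDiffAt (isOpen_Up.mem_nhds (Jp_mem_Up ht))
    have h2 : ContDiff ℝ 2 (fun y : Eu k => Jp y t) :=
      contDiff_Jp.comp (contDiff_id.prodMk contDiff_const)
    have h3 : ContDiffAt ℝ 2 (fun y : Eu k => u (Jp y t)) x :=
      ContDiffAt.comp (f := fun y : Eu k => Jp y t) x h1 h2.contDiffAt
    have h4 : (fun y => hd u y t) = fun y => u (Jp y t) - (1 - Real.cos t) := by
      funext y; exact hd_of_pos u y ht.le
    rw [h4]
    exact h3.sub contDiffAt_const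
  eq := by
    have hAt : ∀ x t, 0 < t → ContDiffAt ℝ 2 u (Jp (k := k) x t) := fun x t ht =>
      hC.contDiffAt (isOpen_Up.mem_nhds (Jp_mem_Up ht))
    set e : Eu (k + 1) := EuclideanSpace.single (Fin.last k) (1 : ℝ) with he
    refine ⟨fun x t => fderiv ℝ u (Jp x t) e - Real.sin t,
      fun x t => iteratedFDeriv ℝ 2 u (Jp x t) (fun _ => e) - Real.cos t, ?_, ?_, ?_, ?_, ?_⟩
    · refine ContinuousOn.sub ?_ (Real.continuous_sin.comp continuous_snd).continuousOn
      have h1 : ContinuousOn (fderiv ℝ u) (Up k) := hC.continuousOn_fderiv_of_isOpen isOpen_Up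
        (by norm_num)
      have h2 : ContinuousOn (fun p : Eu k × ℝ => fderiv ℝ u (Jp p.1 p.2)) {p | 0 < p.2} :=
        h1.comp continuous_Jp.continuousOn fun p hp => Jp_mem_Up hp
      exact h2.clm_apply continuousOn_const
    · refine ContinuousOn.sub ?_ (Real.continuous_cos.comp continuous_snd).continuousOn
      have h1 : ContinuousOn (iteratedFDeriv ℝ 2 u) (Up k) := by
        intro X hX
        have h2 : ContDiffAt ℝ 2 u X := hC.contDiffAt (isOpen_Up.mem_nhds hX)
        have h3 := h2.continuousAt_iteratedFDeriv (k := 2) le_rfl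
        exact h3.continuousWithinAt
      have h2 : ContinuousOn (fun p : Eu k × ℝ => iteratedFDeriv ℝ 2 u (Jp p.1 p.2)) {p | 0 < p.2} :=
        h1.comp continuous_Jp.continuousOn fun p hp => Jp_mem_Up hp
      exact (ContinuousMultilinearMap.apply ℝ (fun _ : Fin 2 => Eu (k + 1)) ℝ
        (fun _ => e)).continuous.comp_continuousOn h2
    · intro x t ht
      have h1 : HasFDerivAt u (fderiv ℝ u (Jp x t)) (Jp x t) :=
        ((hAt x t ht).differentiableAt (by norm_num)).hasFDerivAt
      have h2 : HasDerivAt (fun s => u (Jp x s)) (fderiv ℝ u (Jp x t) e) t :=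
        h1.comp_hasDerivAt t (hasDerivAt_Jp x t)
      have h3 : HasDerivAt (fun s : ℝ => 1 - Real.cos s) (Real.sin t) t := by
        simpa using (Real.hasDerivAt_cos t).const_sub 1
      refine (h2.sub h3).congr_of_eventuallyEq ?_
      filter_upwards [Ioi_mem_nhds ht] with s hs
      exact hd_of_pos u x (le_of_lt hs)
    · intro x t ht
      have h1 : DifferentiableAt ℝ (fderiv ℝ u) (Jp x t) :=
        ((hAt x t ht).fderiv_right (m := 1) (by norm_num)).differentiableAt (by simp)
      have h2 : HasDerivAt (fun s => fderiv ℝ u (Jp x s)) (fderiv ℝ (fderiv ℝ u) (Jp x t) e) t :=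
        h1.hasFDerivAt.comp_hasDerivAt t (hasDerivAt_Jp x t)
      have h3 : HasDerivAt (fun s => fderiv ℝ u (Jp x s) e)
          (iteratedFDeriv ℝ 2 u (Jp x t) (fun _ => e)) t := by
        rw [iteratedFDeriv_two_apply]
        have := h2.clm_apply (hasDerivAt_const t e)
        simpa using this
      exact h3.sub (Real.hasDerivAt_sin t)
    · intro x t ht
      have hA := hAt x t ht
      have hsum : lap (fun y => hd u y t) x =
          ∑ i : Fin k, iteratedFDeriv ℝ 2 u (Jp x t)
            (fun _ => EuclideanSpace.single (Fin.castSucc i) (1 : ℝ)) := by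
        unfold lap
        refine Finset.sum_congr rfl fun i _ => ?_
        have h4 : (fun y => hd u y t) = fun y => u (Jp y t) - (1 - Real.cos t) := by
          funext y; exact hd_of_pos u y ht.le
        rw [h4]
        have h2 : ContDiff ℝ 2 (fun y : Eu k => Jp y t) :=
          contDiff_Jp.comp (contDiff_id.prodMk contDiff_const)
        have h3 : ContDiffAt ℝ 2 (fun y : Eu k => u (Jp y t)) x :=
          ContDiffAt.comp (f := fun y : Eu k => Jp y t) x hA h2.contDiffAt
        refine iteratedFDeriv_two_of_line (g := fun s => fderiv ℝ u (Jp x t +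
          s • (EuclideanSpace.single (Fin.castSucc i) (1 : ℝ) : Eu (k + 1)))
            (EuclideanSpace.single (Fin.castSucc i) (1 : ℝ))) (h3.sub contDiffAt_const) ?_ ?_
        · filter_upwards [line_deriv (v := (EuclideanSpace.single (Fin.castSucc i) (1 : ℝ) :
            Eu (k + 1))) hA] with s hs
          have h5 : (fun s : ℝ => u (Jp (x + s • (EuclideanSpace.single i (1 : ℝ) : Eu k)) t) -
              (1 - Real.cos t)) = fun s : ℝ => u (Jp x t +
                s • (EuclideanSpace.single (Fin.castSucc i) (1 : ℝ) : Eu (k + 1))) -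
                (1 - Real.cos t) := by
            funext s
            rw [Jp_add_x]
          rw [h5]
          exact hs.sub_const _
        · exact line_deriv2 hA
      have hL := heq (Jp x t) (by rw [Jp_last]; exact ht)
      rw [← Pool.Agent.H52R3.Epi.lap_eq_laplacian] at hL
      have hL2 : lap u (Jp x t) = ∑ i : Fin k, iteratedFDeriv ℝ 2 u (Jp x t)
            (fun _ => EuclideanSpace.single (Fin.castSucc i) (1 : ℝ)) +
          iteratedFDeriv ℝ 2 u (Jp x t) (fun _ => e) := by
        unfold lap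
        rw [Fin.sum_univ_castSucc]
      rw [hsum, hd_of_pos u x ht.le]
      linarith

/-- Liouville theorem in the half-space -/
theorem half_space {u : Eu (k + 1) → ℝ} (hC : ContDiffOn ℝ 2 u {X | 0 < X.ofLp (Fin.last k)})
    (hcont : ContinuousOn u {X | 0 ≤ X.ofLp (Fin.last k)})
    (heq : ∀ X : Eu (k + 1), 0 < X.ofLp (Fin.last k) → -(Laplacian.laplacian u X) = u X - 1)
    (hbd : ∀ X : Eu (k + 1), X.ofLp (Fin.last k) = 0 → u X = 0)
    (hH : ∀ M : ℝ, 0 < M → ∃ C : ℝ, ∀ X : Eu (k + 1), 0 ≤ X.ofLp (Fin.last k) →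
      X.ofLp (Fin.last k) ≤ M → 0 ≤ u X ∧ u X ≤ C) (X : Eu (k + 1))
    (hX : 0 ≤ X.ofLp (Fin.last k)) : u X = 1 - Real.cos (X.ofLp (Fin.last k)) := by
  have hs := strip_hd hC hcont heq hbd hH
  have hp : Pos (hd u) := by
    intro x t h0 _
    rw [hd_of_pos u x h0]
    obtain ⟨C, hC⟩ := hH (max t 1) (lt_max_of_lt_right one_pos)
    have := (hC (Jp x t) (by rw [Jp_last]; exact h0) (by rw [Jp_last]; exact le_max_left _ _)).1
    linarith
  have h1 := strip_zero hs hp (WithLp.toLp 2 fun i => X.ofLp (Fin.castSucc i)) (X.ofLp (Fin.last k))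
  rw [hd_of_pos u _ hX, ← Jp_surj] at h1
  linarith

end Pool.Agent.R215.HS
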