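import Pool.Agent.R215.HS.Pos

set_option autoImplicit false
open MeasureTheory Filter Topology Set Metric

/-! The function `B(x) = ∫₀^{2π} h(x,t) sin t dt` has nonpositive averages. -/

namespace Pool.Agent.R215.HS

open Pool.Agent.H314.Dir

variable {k : ℕ}

/-- first sine coefficient on `[0, 2π]` -/
noncomputable def Bf (h : Eu k → ℝ → ℝ) (x : Eu k) : ℝ :=
  ∫ t in (0 : ℝ)..(2 * Real.pi), Real.sin t * h x t

theorem cont_Bf {h : Eu k → ℝ → ℝ} (hs : Strip h) : Continuous (Bf h) := by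
  unfold Bf
  refine intervalIntegral.continuous_parametric_intervalIntegral_of_continuous'
    (f := fun x t => Real.sin t * h x t) ?_ 0 (2 * Real.pi)
  exact (Real.continuous_sin.comp continuous_snd).mul hs.cont

theorem Bf_bound {h : Eu k → ℝ → ℝ} {M : ℝ} (hM : ∀ x t, t ≤ 2 * Real.pi → |h x t| ≤ M)
    (x : Eu k) : |Bf h x| ≤ M * (2 * Real.pi) := by
  have hpi := Real.pi_pos
  unfold Bf
  have h1 := intervalIntegral.norm_integral_le_of_norm_le_const (a := 0) (b := 2 * Real.pi)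
    (f := fun t => Real.sin t * h x t) (C := M) (fun t ht => by
      rw [uIoc_of_le (by positivity)] at ht
      rw [norm_mul, Real.norm_eq_abs, Real.norm_eq_abs]
      have h2 := hM x t ht.2
      have h3 := Real.abs_sin_le_one t
      have h4 := abs_nonneg (h x t)
      nlinarith)
  rw [sub_zero, abs_of_pos (by positivity : 0 < 2 * Real.pi)] at h1
  exact h1

/-- Fubini -/
theorem Av_Bf {h : Eu k → ℝ → ℝ} (hs : Strip h) (c : Eu k) {m : ℕ} (hm : k < 2 * m) {ρ : ℝ}
    (hρ : 0 < ρ) : Av c (Bf h) m ρ =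
      ∫ t in (0 : ℝ)..(2 * Real.pi), Real.sin t * Fh c h m ρ t := by
  obtain ⟨M, hM0, hM⟩ := hs.bdd (2 * Real.pi)
  have hpi := Real.pi_pos
  have e1 : Av c (Bf h) m ρ = ∫ x, (∫ t in (0 : ℝ)..(2 * Real.pi),
      Real.sin t * (en c ρ m x * h x t)) := by
    unfold Av Bf
    refine integral_congr_ae (Eventually.of_forall fun x => ?_)
    simp only
    rw [← intervalIntegral.integral_const_mul]
    refine intervalIntegral.integral_congr fun t _ => ?_
    ring
  have e2 : (∫ t in (0 : ℝ)..(2 * Real.pi), Real.sin t * Fh c h m ρ t) =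
      ∫ t in (0 : ℝ)..(2 * Real.pi), ∫ x, Real.sin t * (en c ρ m x * h x t) := by
    refine intervalIntegral.integral_congr fun t _ => ?_
    rw [integral_const_mul, Fh_eq]
  rw [e1, e2]
  symm
  apply intervalIntegral_integral_swap (f := fun t x => Real.sin t * (en c ρ m x * h x t))
  haveI : IsFiniteMeasure (volume.restrict (Set.uIoc 0 (2 * Real.pi))) := ⟨by
    rw [Measure.restrict_apply_univ, uIoc_of_le (by positivity)]
    exact measure_Ioc_lt_top⟩
  have hb : Integrable (fun z : ℝ × Eu k => (1 : ℝ) * (en c ρ m z.2 * M))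
      ((volume.restrict (Set.uIoc 0 (2 * Real.pi))).prod volume) :=
    (integrable_const (1 : ℝ)).mul_prod ((integrable_en c hρ hm).mul_const M)
  refine hb.mono' ?_ ?_
  · apply Continuous.aestronglyMeasurable
    have h1 : Continuous fun z : ℝ × Eu k => h z.2 z.1 :=
      hs.cont.comp (continuous_snd.prodMk continuous_fst)
    exact (Real.continuous_sin.comp continuous_fst).mul
      (((continuous_en c hρ m).comp continuous_snd).mul h1)
  · have h2 : ∀ᵐ z : ℝ × Eu k ∂((volume.restrict (Set.uIoc 0 (2 * Real.pi))).prod volume),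
        z.1 ∈ Set.uIoc 0 (2 * Real.pi) := by
      have h3 : ∀ᵐ t ∂(volume.restrict (Set.uIoc 0 (2 * Real.pi))), t ∈ Set.uIoc 0 (2 * Real.pi) :=
        ae_restrict_mem measurableSet_uIoc
      exact Measure.quasiMeasurePreserving_fst.ae h3
    filter_upwards [h2] with z hz
    rw [uIoc_of_le (by positivity)] at hz
    simp only [Function.uncurry]
    rw [norm_mul, norm_mul, Real.norm_eq_abs, Real.norm_eq_abs, Real.norm_eq_abs,
      abs_of_pos (en_pos c hρ m z.2)]
    have h5 := hM z.2 z.1 hz.2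
    have h6 := Real.abs_sin_le_one z.1
    have h7 := en_pos c hρ m z.2
    have h8 : en c ρ m z.2 * |h z.2 z.1| ≤ en c ρ m z.2 * M := mul_le_mul_of_nonneg_left h5 h7.le
    exact mul_le_mul h6 h8 (by positivity) zero_le_one

theorem Du_two_pi {g : ℝ → ℝ} :
    Du g (2 * Real.pi) = -∫ t in (0 : ℝ)..(2 * Real.pi), Real.sin t * g t := by
  unfold Du
  rw [← intervalIntegral.integral_neg]
  refine intervalIntegral.integral_congr fun t _ => ?_
  rw [Real.sin_two_pi_sub]
  ring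

theorem Fh_two_pi {h : Eu k → ℝ → ℝ} (hs : Strip h) (c : Eu k) {m : ℕ} (hm : k < 2 * m) {ρ : ℝ}
    (hρ : 0 < ρ) : Fh c h m ρ (2 * Real.pi) = 2 * m * (2 * m + 2 - k) * Av c (Bf h) (m + 1) ρ -
      4 * m * (m + 1) * ρ * Av c (Bf h) (m + 2) ρ := by
  rw [formulaQ hs c hm hρ (by positivity), Real.sin_two_pi, mul_zero, Du_two_pi, zero_sub, neg_neg,
    Av_Bf hs c (by omega) hρ, Av_Bf hs c (by omega) hρ, ← intervalIntegral.integral_const_mul,
    ← intervalIntegral.integral_const_mul, ← intervalIntegral.integral_sub]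
  · refine intervalIntegral.integral_congr fun t _ => ?_
    simp only [LF]
    ring
  · exact (continuous_const.mul (Real.continuous_sin.mul
      (cont_Fh hs c (show k < 2 * (m + 1) by omega) hρ))).intervalIntegrable _ _
  · exact (continuous_const.mul (Real.continuous_sin.mul
      (cont_Fh hs c (show k < 2 * (m + 2) by omega) hρ))).intervalIntegrable _ _

theorem Fh_two_pi_nonneg {h : Eu k → ℝ → ℝ} (hp : Pos h) (c : Eu k) {m : ℕ} {ρ : ℝ}
    (hρ : 0 < ρ) : 0 ≤ Fh c h m ρ (2 * Real.pi) := by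
  rw [Fh_eq]
  refine integral_nonneg fun x => mul_nonneg (en_pos c hρ m x).le ?_
  have := hp x (2 * Real.pi) (by positivity) le_rfl
  rw [Real.cos_two_pi] at this
  linarith

/-- the solution `sin t` -/
theorem strip_sin : Strip (fun (_ : Eu k) t => Real.sin (max t 0)) where
  cont := Real.continuous_sin.comp (continuous_snd.max continuous_const)
  zero := fun x t ht => by rw [max_eq_right ht, Real.sin_zero]
  bdd := fun T => ⟨1, zero_le_one, fun x t _ => Real.abs_sin_le_one _⟩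
  smooth := fun t _ => contDiff_const
  eq := by
    refine ⟨fun _ t => Real.cos t, fun _ t => -Real.sin t, ?_, ?_, ?_, ?_, ?_⟩
    · exact (Real.continuous_cos.comp continuous_snd).continuousOn
    · exact (Real.continuous_sin.comp continuous_snd).neg.continuousOn
    · intro x t ht
      refine (Real.hasDerivAt_sin t).congr_of_eventuallyEq ?_
      filter_upwards [Ioi_mem_nhds ht] with s hs
      rw [max_eq_left (le_of_lt hs)]
    · intro x t _
      exact Real.hasDerivAt_cos t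
    · intro x t ht
      rw [lap_const, max_eq_left ht.le]
      ring

/-- the mass identity -/
theorem Y_identity (c : Eu k) {m : ℕ} (hm : k < 2 * m) {ρ : ℝ} (hρ : 0 < ρ) :
    2 * m * (2 * m + 2 - k) * Yf c (m + 1) ρ - 4 * m * (m + 1) * ρ * Yf c (m + 2) ρ = 0 := by
  set h : Eu k → ℝ → ℝ := fun _ t => Real.sin (max t 0) with hh
  have hF : ∀ m, ∀ t, 0 ≤ t → Fh c h m ρ t = Real.sin t * Yf c m ρ := by
    intro m t ht
    rw [Fh_eq, Yf_eq, ← integral_const_mul]
    refine integral_congr_ae (Eventually.of_forall fun x => ?_)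
    simp only [hh]
    rw [max_eq_left ht]
    ring
  set L := 2 * m * (2 * m + 2 - k) * Yf c (m + 1) ρ - 4 * m * (m + 1) * ρ * Yf c (m + 2) ρ with hL
  have hLF : ∀ t, 0 ≤ t → LF c h m ρ t = Real.sin t * L := by
    intro t ht
    unfold LF
    rw [hF _ t ht, hF _ t ht, hL]
    ring
  have hpi := Real.pi_pos
  have h1 := formulaQ (strip_sin (k := k)) c hm hρ hpi.le
  rw [← hh, hF m _ hpi.le, Real.sin_pi, zero_mul, mul_zero, zero_sub] at h1
  have h2 : Du (LF c h m ρ) Real.pi = L * (Real.pi / 2) := by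
    unfold Du
    have e1 : (∫ s in (0 : ℝ)..Real.pi, Real.sin (Real.pi - s) * LF c h m ρ s) =
        ∫ s in (0 : ℝ)..Real.pi, L * Real.sin s ^ 2 := by
      refine intervalIntegral.integral_congr fun s hs => ?_
      rw [uIcc_of_le hpi.le] at hs
      rw [hLF s hs.1, Real.sin_pi_sub]
      ring
    rw [e1, intervalIntegral.integral_const_mul, integral_sin_sq]
    simp
  rw [h2] at h1
  have h3 : L * (Real.pi / 2) = 0 := by linarith
  rcases mul_eq_zero.1 h3 with h4 | h4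
  · exact h4
  · linarith

/-- monotonicity of the normalised averages in `ρ` -/
theorem ratio_mono {h : Eu k → ℝ → ℝ} (hs : Strip h) (hp : Pos h) (c : Eu k) {m : ℕ}
    (hm : k < 2 * m) (hm1 : 1 ≤ m) :
    MonotoneOn (fun ρ => Av c (Bf h) (m + 1) ρ / Yf c (m + 1) ρ) (Ioi 0) := by
  obtain ⟨M, hM0, hM⟩ := hs.bdd (2 * Real.pi)
  have hB := Bf_bound hM
  have hBc := cont_Bf hs
  have hm' : k < 2 * (m + 1) := by omega
  have d1 : ∀ ρ, 0 < ρ → HasDerivAt (fun ρ => Av c (Bf h) (m + 1) ρ)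
      (-((m + 1 : ℕ) * Av c (Bf h) (m + 1 + 1) ρ)) ρ := fun ρ hρ =>
    hasDerivAt_Av c hρ hm' hBc hB
  have d2 : ∀ ρ, 0 < ρ → HasDerivAt (fun ρ => Yf c (m + 1) ρ)
      (-((m + 1 : ℕ) * Yf c (m + 1 + 1) ρ)) ρ := fun ρ hρ =>
    hasDerivAt_Av c hρ hm' (b := fun _ => 1) continuous_const (M := 1) (fun x => by simp)
  have d3 : ∀ ρ, 0 < ρ → HasDerivAt (fun ρ => Av c (Bf h) (m + 1) ρ / Yf c (m + 1) ρ)
      ((-((m + 1 : ℕ) * Av c (Bf h) (m + 1 + 1) ρ) * Yf c (m + 1) ρ -
        Av c (Bf h) (m + 1) ρ * -((m + 1 : ℕ) * Yf c (m + 1 + 1) ρ)) / Yf c (m + 1) ρ ^ 2) ρ :=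
    fun ρ hρ => (d1 ρ hρ).div (d2 ρ hρ) (Yf_pos c hρ hm').ne'
  refine monotoneOn_of_deriv_nonneg (convex_Ioi 0)
    (fun ρ hρ => (d3 ρ hρ).continuousAt.continuousWithinAt) ?_ ?_
  · rw [interior_Ioi]
    exact fun ρ hρ => (d3 ρ hρ).differentiableAt.differentiableWithinAt
  · rw [interior_Ioi]
    intro ρ hρ
    have hρ' : 0 < ρ := hρ
    rw [(d3 ρ hρ).deriv]
    have hY1 := Yf_pos c hρ' hm'
    have hY2 := Yf_pos c hρ' (show k < 2 * (m + 2) by omega)
    apply div_nonneg _ (by positivity)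
    have g1 := Fh_two_pi hs c hm hρ'
    have g2 := Fh_two_pi_nonneg hp c (m := m) hρ'
    have g3 := Y_identity c hm hρ'
    rw [g1] at g2
    set A1 := Av c (Bf h) (m + 1) ρ with hA1
    have eA2 : Av c (Bf h) (m + 1 + 1) ρ = Av c (Bf h) (m + 2) ρ := rfl
    have eY2 : Yf c (m + 1 + 1) ρ = Yf c (m + 2) ρ := rfl
    rw [eA2, eY2]
    set A2 := Av c (Bf h) (m + 2) ρ with hA2
    set Y1 := Yf c (m + 1) ρ with hY1d
    set Y2 := Yf c (m + 2) ρ with hY2d
    have hm0 : (0 : ℝ) < m := by exact_mod_cast hm1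
    have key : 0 ≤ (4 * m * (m + 1) * ρ) * (A1 * Y2 - A2 * Y1) := by
      have : (4 * m * (m + 1) * ρ) * (A1 * Y2 - A2 * Y1) =
          (2 * m * (2 * m + 2 - k) * A1 - 4 * m * (m + 1) * ρ * A2) * Y1 := by
        linear_combination (-A1) * g3
      rw [this]
      exact mul_nonneg g2 hY1.le
    have key2 : 0 ≤ A1 * Y2 - A2 * Y1 := by
      by_contra hcon
      rw [not_le] at hcon
      have : (4 * m * (m + 1) * ρ) * (A1 * Y2 - A2 * Y1) < 0 :=
        mul_neg_of_pos_of_neg (by positivity) hcon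
      linarith
    have e : -(((m + 1 : ℕ) : ℝ) * A2) * Y1 - A1 * -(((m + 1 : ℕ) : ℝ) * Y2) =
        ((m + 1 : ℕ) : ℝ) * (A1 * Y2 - A2 * Y1) := by ring
    rw [e]
    exact mul_nonneg (Nat.cast_nonneg _) key2

/-- the averages of `B` in terms of `Q` -/
theorem Av_Bf_eq {h : Eu k → ℝ → ℝ} (hs : Strip h) (c : Eu k) {m : ℕ} (hm : k < 2 * m) {ρ : ℝ}
    (hρ : 0 < ρ) : Av c (Bf h) m ρ = Real.pi * Qf c h m ρ -
      ∫ t in (0 : ℝ)..(2 * Real.pi), Real.sin t * Du (LF c h m ρ) t := by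
  have hpi := Real.pi_pos
  rw [Av_Bf hs c hm hρ]
  have e1 : (∫ t in (0 : ℝ)..(2 * Real.pi), Real.sin t * Fh c h m ρ t) =
      ∫ t in (0 : ℝ)..(2 * Real.pi), (Qf c h m ρ * Real.sin t ^ 2 -
        Real.sin t * Du (LF c h m ρ) t) := by
    refine intervalIntegral.integral_congr fun t ht => ?_
    rw [uIcc_of_le (by positivity)] at ht
    rw [formulaQ hs c hm hρ ht.1]
    ring
  rw [e1, intervalIntegral.integral_sub, intervalIntegral.integral_const_mul, integral_sin_sq]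
  · simp
    ring
  · exact (by fun_prop : Continuous fun t => Qf c h m ρ * Real.sin t ^ 2).intervalIntegrable _ _
  · exact (Real.continuous_sin.mul (continuous_Du (cont_LF hs c hm hρ))).intervalIntegrable _ _

theorem int_sin_Du_le {g : ℝ → ℝ} {D : ℝ} (hD : 0 ≤ D)
    (hg : ∀ s, 0 ≤ s → s ≤ 2 * Real.pi → |g s| ≤ D) :
    |∫ t in (0 : ℝ)..(2 * Real.pi), Real.sin t * Du g t| ≤ 64 * D := by
  have hpi := Real.pi_pos
  have hpi4 := Real.pi_lt_four
  have h1 := intervalIntegral.norm_integral_le_of_norm_le_const (a := 0) (b := 2 * Real.pi)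
    (f := fun t => Real.sin t * Du g t) (C := D * 8) (fun t ht => by
      rw [uIoc_of_le (by positivity)] at ht
      rw [norm_mul, Real.norm_eq_abs, Real.norm_eq_abs]
      have h2 := Du_abs_le (g := g) ht.1.le (C := D) fun s h0 h1 => hg s h0 (h1.trans ht.2)
      have h3 := Real.abs_sin_le_one t
      have h4 := abs_nonneg (Du g t)
      have h5 : D * t ≤ D * 8 := mul_le_mul_of_nonneg_left (by linarith [ht.2]) hD
      nlinarith)
  rw [sub_zero, abs_of_pos (by positivity : 0 < 2 * Real.pi)] at h1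
  have : D * 8 * (2 * Real.pi) ≤ 64 * D := by nlinarith
  exact h1.trans this

/-- the averages of `B` are nonpositive -/
theorem Av_Bf_nonpos {h : Eu k → ℝ → ℝ} (hs : Strip h) (hp : Pos h) (c : Eu k) {m : ℕ}
    (hm : k < 2 * m) (hm1 : 1 ≤ m) {ρ₀ : ℝ} (hρ₀ : 0 < ρ₀) : Av c (Bf h) (m + 1) ρ₀ ≤ 0 := by
  obtain ⟨M, hM0, hM⟩ := hs.bdd (2 * Real.pi)
  have hm' : k < 2 * (m + 1) := by omega
  have hY0 := Yf_pos c hρ₀ hm'
  have hpi4 := Real.pi_lt_four
  have hpi := Real.pi_gt_three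
  set K := Cm k (m + 1) * M with hK
  have hK0 : 0 ≤ K := mul_nonneg (Cm_nonneg k _) hM0
  -- bound for the ratio
  have hb : ∀ ρ, 0 < ρ → ∀ ε, 0 < ε → ε ≤ 1 →
      Av c (Bf h) (m + 1) ρ / Yf c (m + 1) ρ ≤ 4 * ε + 128 * K / (ρ * ε) := by
    intro ρ hρ ε h0 h1
    have hY := Yf_pos c hρ hm'
    rw [div_le_iff₀ hY, Av_Bf_eq hs c hm' hρ]
    have g1 := Q_small hs hp c hm' hM0 hM hρ h0 h1
    have g2 := (abs_le.1 (int_sin_Du_le (g := LF c h (m + 1) ρ)
      (D := Cm k (m + 1) * (M * (ρ⁻¹ * Yf c (m + 1) ρ)))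
      (by have := Cm_nonneg k (m + 1); positivity)
      (fun s _ h1 => LF_bound c hm' hρ hM0 fun x => hM x s h1))).1
    have g3 := Q_nonneg hs hp c hm' hρ
    have g4 : Real.pi * Qf c h (m + 1) ρ ≤ 4 * ((ε + 16 * Cm k (m + 1) * M / (ρ * ε)) *
        Yf c (m + 1) ρ) := mul_le_mul hpi4.le g1 g3 (by norm_num)
    have g5 : Cm k (m + 1) * (M * (ρ⁻¹ * Yf c (m + 1) ρ)) ≤ K / (ρ * ε) * Yf c (m + 1) ρ := by
      have g6 : Cm k (m + 1) * (M * (ρ⁻¹ * Yf c (m + 1) ρ)) = K / ρ * Yf c (m + 1) ρ := by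
        rw [hK]; field_simp
      rw [g6]
      apply mul_le_mul_of_nonneg_right _ hY.le
      apply div_le_div_of_nonneg_left hK0 (by positivity)
      nlinarith
    have g7 : 16 * Cm k (m + 1) * M / (ρ * ε) = 16 * (K / (ρ * ε)) := by rw [hK]; ring
    rw [g7] at g4
    have g8 : 128 * K / (ρ * ε) = 128 * (K / (ρ * ε)) := by ring
    rw [g8]
    nlinarith
  by_contra hcon
  rw [not_le] at hcon
  set b0 := Av c (Bf h) (m + 1) ρ₀ / Yf c (m + 1) ρ₀ with hb0
  have hb0p : 0 < b0 := div_pos hcon hY0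
  set ε := min 1 (b0 / 16) with hε
  have hε0 : 0 < ε := lt_min one_pos (by positivity)
  set ρ := ρ₀ + 512 * (K + 1) / (b0 * ε) with hρd
  have hρ : 0 < ρ := by positivity
  have hle : ρ₀ ≤ ρ := by
    rw [hρd]
    have : 0 ≤ 512 * (K + 1) / (b0 * ε) := by positivity
    linarith
  have h1 := ratio_mono hs hp c hm hm1 (mem_Ioi.2 hρ₀) (mem_Ioi.2 hρ) hle
  simp only at h1
  have h2 := hb ρ hρ ε hε0 (min_le_left _ _)
  have h3 : ε ≤ b0 / 16 := min_le_right _ _
  have h4 : 128 * K / (ρ * ε) ≤ b0 / 4 := by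
    rw [div_le_iff₀ (by positivity)]
    have h5 : 512 * (K + 1) / (b0 * ε) ≤ ρ := by rw [hρd]; linarith
    rw [div_le_iff₀ (by positivity)] at h5
    nlinarith
  linarith

end Pool.Agent.R215.HS
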