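import Mathlib

set_option autoImplicit false
open MeasureTheory Filter Topology Set Metric

/-! The ODE `Φ'' + Φ = -g` on `(0,∞)`. -/

namespace Pool.Agent.R215.HS

/-- the Duhamel term -/
noncomputable def Du (g : ℝ → ℝ) (t : ℝ) : ℝ := ∫ s in (0 : ℝ)..t, Real.sin (t - s) * g s

theorem Du_eq {g : ℝ → ℝ} (hg : Continuous g) (t : ℝ) :
    Du g t = Real.sin t * (∫ s in (0 : ℝ)..t, Real.cos s * g s) -
      Real.cos t * (∫ s in (0 : ℝ)..t, Real.sin s * g s) := by
  unfold Du
  rw [← intervalIntegral.integral_const_mul, ← intervalIntegral.integral_const_mul,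
    ← intervalIntegral.integral_sub]
  · refine intervalIntegral.integral_congr fun s _ => ?_
    simp only [Real.sin_sub]
    ring
  · exact (by fun_prop : Continuous fun s => Real.sin t * (Real.cos s * g s)).intervalIntegrable _ _
  · exact (by fun_prop : Continuous fun s => Real.cos t * (Real.sin s * g s)).intervalIntegrable _ _

theorem ode_sol {Φ Φ' g : ℝ → ℝ} (hg : Continuous g)
    (h1 : ∀ t, 0 < t → HasDerivAt Φ (Φ' t) t)
    (h2 : ∀ t, 0 < t → HasDerivAt Φ' (-Φ t - g t) t)
    (hc : ContinuousAt Φ 0) (h0 : Φ 0 = 0) :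
    ∃ β : ℝ, ∀ t, 0 ≤ t → Φ t = β * Real.sin t - Du g t := by
  set a : ℝ → ℝ := fun t => ∫ s in (0 : ℝ)..t, Real.cos s * g s with ha
  set b : ℝ → ℝ := fun t => ∫ s in (0 : ℝ)..t, Real.sin s * g s with hb
  have hca : Continuous fun s => Real.cos s * g s := by fun_prop
  have hcb : Continuous fun s => Real.sin s * g s := by fun_prop
  have da : ∀ t, HasDerivAt a (Real.cos t * g t) t := fun t =>
    intervalIntegral.integral_hasDerivAt_right (hca.intervalIntegrable _ _)
      hca.stronglyMeasurable.stronglyMeasurableAtFilter hca.continuousAt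
  have db : ∀ t, HasDerivAt b (Real.sin t * g t) t := fun t =>
    intervalIntegral.integral_hasDerivAt_right (hcb.intervalIntegrable _ _)
      hcb.stronglyMeasurable.stronglyMeasurableAtFilter hcb.continuousAt
  have d1 : ∀ t, 0 < t → HasDerivAt
      (fun t => Φ' t * Real.cos t + Φ t * Real.sin t + a t) 0 t := by
    intro t ht
    have := (((h2 t ht).mul (Real.hasDerivAt_cos t)).add ((h1 t ht).mul (Real.hasDerivAt_sin t))).add
      (da t)
    refine this.congr_deriv ?_
    ring
  have d2 : ∀ t, 0 < t → HasDerivAt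
      (fun t => Φ' t * Real.sin t - Φ t * Real.cos t + b t) 0 t := by
    intro t ht
    have := (((h2 t ht).mul (Real.hasDerivAt_sin t)).sub ((h1 t ht).mul (Real.hasDerivAt_cos t))).add
      (db t)
    refine this.congr_deriv ?_
    ring
  have const : ∀ f : ℝ → ℝ, (∀ t, 0 < t → HasDerivAt f 0 t) → ∀ t, 0 < t → f t = f 1 := by
    intro f hf t ht
    refine isOpen_Ioi.is_const_of_deriv_eq_zero (s := Ioi (0 : ℝ)) isPreconnected_Ioi
      (fun x hx => (hf x hx).differentiableAt.differentiableWithinAt)
      (fun x hx => (hf x hx).deriv) (mem_Ioi.2 ht) (mem_Ioi.2 one_pos)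
  have k1 := const _ d1
  have k2 := const _ d2
  set c1 := Φ' 1 * Real.cos 1 + Φ 1 * Real.sin 1 + a 1 with hc1
  set c2 := Φ' 1 * Real.sin 1 - Φ 1 * Real.cos 1 + b 1 with hc2
  have rep : ∀ t, 0 < t → Φ t = (c1 - a t) * Real.sin t - (c2 - b t) * Real.cos t := by
    intro t ht
    have e1 := k1 t ht
    have e2 := k2 t ht
    have hsc := Real.sin_sq_add_cos_sq t
    linear_combination Real.sin t * e1 - Real.cos t * e2 - Φ t * hsc
  have a0 : a 0 = 0 := by simp [ha]
  have b0 : b 0 = 0 := by simp [hb]
  have hc20 : c2 = 0 := by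
    have l1 : Tendsto Φ (𝓝[>] 0) (𝓝 0) := by
      have := hc.tendsto
      rw [h0] at this
      exact this.mono_left nhdsWithin_le_nhds
    have l2 : Tendsto (fun t => (c1 - a t) * Real.sin t - (c2 - b t) * Real.cos t) (𝓝[>] 0)
        (𝓝 (-c2)) := by
      have ca : ContinuousAt a 0 := (da 0).continuousAt
      have cb : ContinuousAt b 0 := (db 0).continuousAt
      have : ContinuousAt (fun t => (c1 - a t) * Real.sin t - (c2 - b t) * Real.cos t) 0 :=
        ((continuousAt_const.sub ca).mul Real.continuous_sin.continuousAt).sub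
          ((continuousAt_const.sub cb).mul Real.continuous_cos.continuousAt)
      have h3 := this.tendsto
      simp only [a0, b0, Real.sin_zero, Real.cos_zero, mul_zero, sub_zero, mul_one, zero_sub] at h3
      exact h3.mono_left nhdsWithin_le_nhds
    have l3 : Tendsto Φ (𝓝[>] 0) (𝓝 (-c2)) := by
      refine l2.congr' ?_
      filter_upwards [self_mem_nhdsWithin] with t ht
      exact (rep t ht).symm
    have := tendsto_nhds_unique l1 l3
    linarith
  refine ⟨c1, fun t ht => ?_⟩
  rcases ht.eq_or_lt with h | h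
  · rw [← h, h0, Du_eq hg]
    simp
  · rw [rep t h, Du_eq hg, hc20]
    simp only [ha, hb]
    ring

theorem continuous_Du {g : ℝ → ℝ} (hg : Continuous g) : Continuous (Du g) := by
  have h : Du g = fun t => Real.sin t * (∫ s in (0 : ℝ)..t, Real.cos s * g s) -
      Real.cos t * (∫ s in (0 : ℝ)..t, Real.sin s * g s) := funext fun t => Du_eq hg t
  rw [h]
  have h1 : Continuous fun t => ∫ s in (0 : ℝ)..t, Real.cos s * g s :=
    intervalIntegral.continuous_primitive
      (fun a b => (by fun_prop : Continuous fun s => Real.cos s * g s).intervalIntegrable a b) 0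
  have h2 : Continuous fun t => ∫ s in (0 : ℝ)..t, Real.sin s * g s :=
    intervalIntegral.continuous_primitive
      (fun a b => (by fun_prop : Continuous fun s => Real.sin s * g s).intervalIntegrable a b) 0
  exact (Real.continuous_sin.mul h1).sub (Real.continuous_cos.mul h2)

/-- crude bound for the Duhamel term -/
theorem Du_abs_le {g : ℝ → ℝ} {t C : ℝ} (ht : 0 ≤ t) (hC : ∀ s, 0 ≤ s → s ≤ t → |g s| ≤ C) :
    |Du g t| ≤ C * t := by
  unfold Du
  have h := intervalIntegral.norm_integral_le_of_norm_le_const (a := 0) (b := t)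
    (f := fun s => Real.sin (t - s) * g s) (C := C) (fun s hs => by
      rw [uIoc_of_le ht] at hs
      rw [norm_mul, Real.norm_eq_abs, Real.norm_eq_abs]
      have h1 := hC s hs.1.le hs.2
      have h2 := Real.abs_sin_le_one (t - s)
      have h3 := abs_nonneg (g s)
      nlinarith [abs_nonneg (Real.sin (t - s))])
  rw [sub_zero, abs_of_nonneg ht] at h
  exact h

/-- quadratic bound for the Duhamel term -/
theorem Du_abs_le_sq {g : ℝ → ℝ} {t C : ℝ} (ht : 0 ≤ t) (hC : ∀ s, 0 ≤ s → s ≤ t → |g s| ≤ C) :
    |Du g t| ≤ C * t ^ 2 := by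
  unfold Du
  have h := intervalIntegral.norm_integral_le_of_norm_le_const (a := 0) (b := t)
    (f := fun s => Real.sin (t - s) * g s) (C := C * t) (fun s hs => by
      rw [uIoc_of_le ht] at hs
      rw [norm_mul, Real.norm_eq_abs, Real.norm_eq_abs]
      have h1 := hC s hs.1.le hs.2
      have h2 : |Real.sin (t - s)| ≤ t := by
        have h4 : |Real.sin (t - s)| ≤ |t - s| := Real.abs_sin_le_abs
        rw [abs_of_nonneg (by linarith [hs.2] : 0 ≤ t - s)] at h4
        linarith [hs.1]
      rw [mul_comm C t]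
      exact mul_le_mul h2 h1 (abs_nonneg _) ht)
  rw [sub_zero, abs_of_nonneg ht] at h
  calc _ ≤ C * t * t := h
    _ = C * t ^ 2 := by ring

end Pool.Agent.R215.HS
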