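import Pool.Agent.R215.HS.Formula

set_option autoImplicit false
open MeasureTheory Filter Topology Set Metric

/-! Positivity of the boundary functional and first bounds. -/

namespace Pool.Agent.R215.HS

open Pool.Agent.H314.Dir

variable {k : ℕ}

noncomputable def Cm (k m : ℕ) : ℝ := 2 * m * (2 * m + 2 + k) + 4 * m * (m + 1)

theorem Cm_nonneg (k m : ℕ) : 0 ≤ Cm k m := by unfold Cm; positivity

theorem LF_le_of {c : Eu k} {h : Eu k → ℝ → ℝ} {m : ℕ} {ρ t A : ℝ} (hρ : 0 < ρ)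
    (h1 : |Fh c h (m + 1) ρ t| ≤ A) (h2 : ρ * |Fh c h (m + 2) ρ t| ≤ A) :
    |LF c h m ρ t| ≤ Cm k m * A := by
  unfold LF Cm
  have hm0 : (0 : ℝ) ≤ m := Nat.cast_nonneg m
  have hk0 : (0 : ℝ) ≤ k := Nat.cast_nonneg k
  have e1 : |2 * (m : ℝ) * (2 * m + 2 - k) * Fh c h (m + 1) ρ t| ≤
      2 * m * (2 * m + 2 + k) * A := by
    rw [abs_mul, abs_mul, abs_of_nonneg (by positivity : 0 ≤ 2 * (m : ℝ))]
    have h3 : |2 * (m : ℝ) + 2 - k| ≤ 2 * m + 2 + k := by
      rw [abs_le]; constructor <;> linarith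
    exact mul_le_mul (mul_le_mul_of_nonneg_left h3 (by positivity)) h1 (abs_nonneg _) (by positivity)
  have e2 : |4 * (m : ℝ) * (m + 1) * ρ * Fh c h (m + 2) ρ t| ≤ 4 * m * (m + 1) * A := by
    rw [abs_mul, abs_of_nonneg (by positivity : 0 ≤ 4 * (m : ℝ) * (m + 1) * ρ), mul_assoc]
    exact mul_le_mul_of_nonneg_left h2 (by positivity)
  calc _ ≤ _ := abs_sub _ _
    _ ≤ _ := add_le_add e1 e2
    _ = _ := by ring

theorem Fh_abs_le (c : Eu k) {h : Eu k → ℝ → ℝ} {m : ℕ} (hm : k < 2 * m) {ρ t M : ℝ} (hρ : 0 < ρ)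
    (hM : ∀ x, |h x t| ≤ M) : |Fh c h m ρ t| ≤ M * Yf c m ρ :=
  Av_abs_le c hρ hm hM

theorem LF_bound (c : Eu k) {h : Eu k → ℝ → ℝ} {m : ℕ} (hm : k < 2 * m) {ρ t M : ℝ} (hρ : 0 < ρ)
    (hM0 : 0 ≤ M) (hM : ∀ x, |h x t| ≤ M) :
    |LF c h m ρ t| ≤ Cm k m * (M * (ρ⁻¹ * Yf c m ρ)) := by
  have y1 := Yf_succ_le c hρ hm
  have y2 := Yf_succ_le c hρ (show k < 2 * (m + 1) by omega)
  apply LF_le_of hρ
  · refine (Fh_abs_le c (by omega) hρ hM).trans ?_
    exact mul_le_mul_of_nonneg_left y1 hM0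
  · have h1 := Fh_abs_le c (show k < 2 * (m + 2) by omega) hρ hM
    calc ρ * |Fh c h (m + 2) ρ t| ≤ ρ * (M * (ρ⁻¹ * Yf c (m + 1) ρ)) :=
          mul_le_mul_of_nonneg_left (h1.trans (mul_le_mul_of_nonneg_left y2 hM0)) hρ.le
      _ = M * Yf c (m + 1) ρ := by field_simp
      _ ≤ M * (ρ⁻¹ * Yf c m ρ) := mul_le_mul_of_nonneg_left y1 hM0

/-- the sign condition -/
def Pos (h : Eu k → ℝ → ℝ) : Prop :=
  ∀ x t, 0 ≤ t → t ≤ 2 * Real.pi → -(1 - Real.cos t) ≤ h x t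

theorem sin_half {ε : ℝ} (h0 : 0 < ε) (h1 : ε ≤ 1) : ε / 2 ≤ Real.sin ε := by
  have h2 := Real.sin_gt_sub_cube (x := ε) h0
  have h3 : ε ^ 3 ≤ ε := by nlinarith [mul_nonneg h0.le (by linarith : 0 ≤ 1 - ε)]
  linarith

theorem one_sub_cos_le (ε : ℝ) : 1 - Real.cos ε ≤ ε ^ 2 / 2 := by
  have := Real.one_sub_sq_div_two_le_cos (x := ε)
  linarith

theorem one_sub_cos_nonneg (t : ℝ) : 0 ≤ 1 - Real.cos t := by
  have := Real.cos_le_one t
  linarith

/-- positivity of the boundary functional -/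
theorem Q_pos {h : Eu k → ℝ → ℝ} (hs : Strip h) (hp : Pos h) (c : Eu k) {m m' : ℕ}
    (hm : k < 2 * m) (hm' : k < 2 * m') {ρ ρ' a b : ℝ} (hρ : 0 < ρ) (hρ' : 0 < ρ')
    (ha : 0 ≤ a) (hb : 0 ≤ b) (hG : ∀ x, b * en c ρ' m' x ≤ a * en c ρ m x) :
    b * Qf c h m' ρ' ≤ a * Qf c h m ρ := by
  obtain ⟨M, hM0, hM⟩ := hs.bdd 1
  have hpi := Real.pi_gt_three
  set C1 := Cm k m * (M * (ρ⁻¹ * Yf c m ρ)) with hC1
  set C2 := Cm k m' * (M * (ρ'⁻¹ * Yf c m' ρ')) with hC2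
  have hY := Yf_pos c hρ hm
  have hY' := Yf_pos c hρ' hm'
  have hC10 : 0 ≤ C1 := by
    have := Cm_nonneg k m
    positivity
  have hC20 : 0 ≤ C2 := by
    have := Cm_nonneg k m'
    positivity
  set K := a * Yf c m ρ + 2 * a * C1 + 2 * b * C2 with hK
  have hK0 : 0 ≤ K := by positivity
  have key : ∀ t, 0 < t → t ≤ 1 → -(K * t) ≤ a * Qf c h m ρ - b * Qf c h m' ρ' := by
    intro t h0 h1
    have f1 := formulaQ hs c hm hρ h0.le
    have f2 := formulaQ hs c hm' hρ' h0.le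
    have d1 := (abs_le.1 (Du_abs_le_sq (g := LF c h m ρ) h0.le (C := C1) fun s _ hst =>
      LF_bound c hm hρ hM0 fun x => hM x s (by linarith))).1
    have d2 := (abs_le.1 (Du_abs_le_sq (g := LF c h m' ρ') h0.le (C := C2) fun s _ hst =>
      LF_bound c hm' hρ' hM0 fun x => hM x s (by linarith))).2
    have d3 : -(t ^ 2 / 2 * (a * Yf c m ρ)) ≤ a * Fh c h m ρ t - b * Fh c h m' ρ' t := by
      have i1 := (hs.int (integrable_en c hρ hm) t).const_mul a
      have i2 := (hs.int (integrable_en c hρ' hm') t).const_mul b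
      have i3 := ((integrable_en c hρ hm).const_mul a).const_mul (-(t ^ 2 / 2))
      have eL : -(t ^ 2 / 2 * (a * Yf c m ρ)) = ∫ x, -(t ^ 2 / 2) * (a * en c ρ m x) := by
        rw [integral_const_mul, integral_const_mul, Yf_eq]
        ring
      have eR : a * Fh c h m ρ t - b * Fh c h m' ρ' t =
          ∫ x, (a * (en c ρ m x * h x t) - b * (en c ρ' m' x * h x t)) := by
        rw [integral_sub i1 i2, integral_const_mul, integral_const_mul, Fh_eq, Fh_eq]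
      rw [eL, eR]
      refine integral_mono i3 (i1.sub i2) fun x => ?_
      simp only
      have g0 := hG x
      have g1 := en_pos c hρ' m' x
      have g2 : -(t ^ 2 / 2) ≤ h x t := by
        have := hp x t h0.le (by linarith)
        have := one_sub_cos_le t
        linarith
      have g3 : 0 ≤ t ^ 2 / 2 := by positivity
      have g4 : 0 ≤ b * en c ρ' m' x := mul_nonneg hb g1.le
      nlinarith
    have e1 : (a * Qf c h m ρ - b * Qf c h m' ρ') * Real.sin t =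
        (a * Fh c h m ρ t - b * Fh c h m' ρ' t) + a * Du (LF c h m ρ) t -
          b * Du (LF c h m' ρ') t := by
      rw [f1, f2]; ring
    set D := a * Qf c h m ρ - b * Qf c h m' ρ' with hD
    have e2 : -(K * t ^ 2 / 2) ≤ D * Real.sin t := by
      rw [e1]
      have g1 : a * (-(C1 * t ^ 2)) ≤ a * Du (LF c h m ρ) t := mul_le_mul_of_nonneg_left d1 ha
      have g2 : b * Du (LF c h m' ρ') t ≤ b * (C2 * t ^ 2) := mul_le_mul_of_nonneg_left d2 hb
      rw [hK]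
      nlinarith
    by_contra hcon
    rw [not_le] at hcon
    have hs1 := sin_half h0 h1
    have hD0 : D < 0 := by
      have : 0 ≤ K * t := by positivity
      linarith
    have e3 : D * Real.sin t ≤ D * (t / 2) := by nlinarith
    have e4 : D * (t / 2) < -(K * t) * (t / 2) := mul_lt_mul_of_pos_right hcon (by positivity)
    nlinarith
  by_contra hcon
  rw [not_le] at hcon
  set D := a * Qf c h m ρ - b * Qf c h m' ρ' with hD
  have hD0 : D < 0 := by linarith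
  -- choose `t` small
  set t := min 1 (-D / (2 * (K + 1))) with ht
  have ht0 : 0 < t := by
    apply lt_min one_pos
    apply div_pos (by linarith) (by linarith)
  have h2 := key t ht0 (min_le_left _ _)
  have h3 : t ≤ -D / (2 * (K + 1)) := min_le_right _ _
  rw [le_div_iff₀ (by linarith)] at h3
  nlinarith

theorem Q_nonneg {h : Eu k → ℝ → ℝ} (hs : Strip h) (hp : Pos h) (c : Eu k) {m : ℕ}
    (hm : k < 2 * m) {ρ : ℝ} (hρ : 0 < ρ) : 0 ≤ Qf c h m ρ := by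
  have := Q_pos hs hp c hm hm hρ hρ (a := 1) (b := 0) zero_le_one le_rfl (fun x => by
    rw [zero_mul, one_mul]
    exact (en_pos c hρ m x).le)
  simpa using this

theorem Q_succ_le {h : Eu k → ℝ → ℝ} (hs : Strip h) (hp : Pos h) (c : Eu k) {m : ℕ}
    (hm : k < 2 * m) {ρ : ℝ} (hρ : 0 < ρ) : Qf c h (m + 1) ρ ≤ ρ⁻¹ * Qf c h m ρ := by
  have := Q_pos hs hp c hm (show k < 2 * (m + 1) by omega) hρ hρ (a := ρ⁻¹) (b := 1)
    (by positivity) zero_le_one (fun x => by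
      rw [one_mul]
      exact en_succ_le c hρ m x)
  simpa using this

theorem Q_mono {h : Eu k → ℝ → ℝ} (hs : Strip h) (hp : Pos h) (c : Eu k) {m : ℕ}
    (hm : k < 2 * m) {ρ ρ' : ℝ} (hρ : 0 < ρ) (hρ' : ρ ≤ ρ') :
    ρ ^ m * Qf c h m ρ ≤ ρ' ^ m * Qf c h m ρ' :=
  Q_pos hs hp c hm hm (hρ.trans_le hρ') hρ (a := ρ' ^ m) (b := ρ ^ m)
    (pow_nonneg (hρ.trans_le hρ').le _) (by positivity) (fun x => en_mono c hρ hρ' m x)

/-- the averages of the boundary functional are small compared to the mass -/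
theorem Q_small {h : Eu k → ℝ → ℝ} (hs : Strip h) (hp : Pos h) (c : Eu k) {m : ℕ}
    (hm : k < 2 * m) {M : ℝ} (hM0 : 0 ≤ M) (hM : ∀ x t, t ≤ 2 * Real.pi → |h x t| ≤ M)
    {ρ ε : ℝ} (hρ : 0 < ρ) (h0 : 0 < ε) (h1 : ε ≤ 1) :
    Qf c h m ρ ≤ (ε + 16 * Cm k m * M / (ρ * ε)) * Yf c m ρ := by
  have hpi := Real.pi_gt_three
  have hpi4 := Real.pi_lt_four
  have hY := Yf_pos c hρ hm
  have ht0 : 0 ≤ 2 * Real.pi - ε := by linarith
  have f1 := formulaQ hs c hm hρ ht0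
  have d1 := (abs_le.1 (Du_abs_le (g := LF c h m ρ) ht0
    (C := Cm k m * (M * (ρ⁻¹ * Yf c m ρ))) fun s _ hst =>
      LF_bound c hm hρ hM0 fun x => hM x s (by linarith))).1
  have hsin : Real.sin (2 * Real.pi - ε) = -Real.sin ε := by
    rw [Real.sin_two_pi_sub]
  have hcos : Real.cos (2 * Real.pi - ε) = Real.cos ε := by
    rw [Real.cos_two_pi_sub]
  have d3 : -(ε ^ 2 / 2 * Yf c m ρ) ≤ Fh c h m ρ (2 * Real.pi - ε) := by
    have i1 := hs.int (integrable_en c hρ hm) (2 * Real.pi - ε)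
    have i3 := (integrable_en c hρ hm).const_mul (ε ^ 2 / 2)
    rw [Fh_eq, Yf_eq, ← integral_const_mul, ← integral_neg]
    refine integral_mono i3.neg i1 fun x => ?_
    have g2 : -(ε ^ 2 / 2) ≤ h x (2 * Real.pi - ε) := by
      have := hp x (2 * Real.pi - ε) ht0 (by linarith)
      rw [hcos] at this
      have := one_sub_cos_le ε
      linarith
    have g1 := en_pos c hρ m x
    simp only
    nlinarith
  have hsε := sin_half h0 h1
  have hQ := Q_nonneg hs hp c hm hρ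
  have hCm := Cm_nonneg k m
  set D := Cm k m * (M * (ρ⁻¹ * Yf c m ρ)) with hD
  have hD0 : 0 ≤ D := by positivity
  rw [f1, hsin] at d3
  have e1 : Qf c h m ρ * Real.sin ε ≤ ε ^ 2 / 2 * Yf c m ρ + D * 8 := by
    nlinarith
  have e2 : Qf c h m ρ * (ε / 2) ≤ Qf c h m ρ * Real.sin ε := mul_le_mul_of_nonneg_left hsε hQ
  have e3 : (ε + 16 * Cm k m * M / (ρ * ε)) * Yf c m ρ = (ε ^ 2 / 2 * Yf c m ρ + D * 8) / (ε / 2) := by
    rw [hD]
    field_simp
    ring
  rw [e3, le_div_iff₀ (by positivity)]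
  linarith

end Pool.Agent.R215.HS
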