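import Pool.Agent.R215.HS.Weights
import Pool.Agent.R215.HS.Ode

set_option autoImplicit false
open MeasureTheory Filter Topology Set Metric

/-! The representation formula for weighted averages (MP_e4c1d4_an). -/

namespace Pool.Agent.R215.HS

open Pool.Agent.H314.Dir

variable {k : ℕ}

/-- solutions of `-Δh = h` in the half-space, vanishing on the boundary (extended by zero) and
bounded on strips -/
structure Strip (h : Eu k → ℝ → ℝ) : Prop where
  cont : Continuous (fun p : Eu k × ℝ => h p.1 p.2)
  zero : ∀ x t, t ≤ 0 → h x t = 0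
  bdd : ∀ T : ℝ, ∃ M : ℝ, 0 ≤ M ∧ ∀ x t, t ≤ T → |h x t| ≤ M
  smooth : ∀ t, 0 < t → ContDiff ℝ 2 (fun x => h x t)
  eq : ∃ ht htt : Eu k → ℝ → ℝ,
    ContinuousOn (fun p : Eu k × ℝ => ht p.1 p.2) {p | 0 < p.2} ∧
    ContinuousOn (fun p : Eu k × ℝ => htt p.1 p.2) {p | 0 < p.2} ∧
    (∀ x t, 0 < t → HasDerivAt (h x) (ht x t) t) ∧
    (∀ x t, 0 < t → HasDerivAt (ht x) (htt x t) t) ∧
    (∀ x t, 0 < t → lap (fun y => h y t) x + htt x t + h x t = 0)

theorem Strip.contx {h : Eu k → ℝ → ℝ} (hs : Strip h) (t : ℝ) : Continuous fun x => h x t :=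
  hs.cont.comp (continuous_id.prodMk continuous_const)

theorem Strip.contt {h : Eu k → ℝ → ℝ} (hs : Strip h) (x : Eu k) : Continuous fun t => h x t :=
  hs.cont.comp (continuous_const.prodMk continuous_id)

theorem Strip.int {h : Eu k → ℝ → ℝ} (hs : Strip h) {W : Eu k → ℝ} (hW : Integrable W) (t : ℝ) :
    Integrable fun x => W x * h x t := by
  obtain ⟨M, hM0, hM⟩ := hs.bdd t
  exact hW.mul_bdd (c := M) (hs.contx t).aestronglyMeasurable
    (Eventually.of_forall fun x => hM x t le_rfl)

theorem Strip.cont_F {h : Eu k → ℝ → ℝ} (hs : Strip h) {W : Eu k → ℝ} (hW : Integrable W) :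
    Continuous fun t => ∫ x, W x * h x t := by
  rw [continuous_iff_continuousAt]
  intro t₀
  obtain ⟨M, hM0, hM⟩ := hs.bdd (t₀ + 1)
  refine continuousAt_of_dominated (bound := fun x => |W x| * M) ?_ ?_ (hW.abs.mul_const M) ?_
  · exact Eventually.of_forall fun t => (hs.int hW t).aestronglyMeasurable
  · filter_upwards [Iic_mem_nhds (by linarith : t₀ < t₀ + 1)] with t ht
    refine Eventually.of_forall fun x => ?_
    rw [norm_mul, Real.norm_eq_abs, Real.norm_eq_abs]
    exact mul_le_mul_of_nonneg_left (hM x t ht) (abs_nonneg _)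
  · exact Eventually.of_forall fun x => continuousAt_const.mul (hs.contt x).continuousAt

/-- differentiation under the integral sign with a compactly supported factor -/
theorem hasDerivAt_integral_cs {G : Eu k → ℝ} (hG : Continuous G) (hGc : HasCompactSupport G)
    {f f' : Eu k → ℝ → ℝ} {t₀ : ℝ} (ht₀ : 0 < t₀)
    (hf : ∀ t, 0 < t → Continuous fun x => f x t)
    (hf' : ContinuousOn (fun p : Eu k × ℝ => f' p.1 p.2) {p | 0 < p.2})
    (hd : ∀ x t, 0 < t → HasDerivAt (f x) (f' x t) t) :
    HasDerivAt (fun t => ∫ x, G x * f x t) (∫ x, G x * f' x t₀) t₀ := by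
  have hf'x : ∀ t, 0 < t → Continuous fun x => f' x t := by
    intro t ht
    have h1 : Continuous fun x : Eu k => ((x, t) : Eu k × ℝ) := continuous_id.prodMk continuous_const
    exact hf'.comp_continuous h1 fun x => ht
  obtain ⟨C, hC⟩ : ∃ C, ∀ p ∈ tsupport G ×ˢ Icc (t₀ / 2) (2 * t₀), ‖f' p.1 p.2‖ ≤ C := by
    refine IsCompact.exists_bound_of_continuousOn (f := fun p : Eu k × ℝ => f' p.1 p.2)
      (hGc.isCompact.prod isCompact_Icc) (hf'.mono ?_)
    rintro ⟨x, t⟩ ⟨_, ht⟩
    have : t₀ / 2 ≤ t := ht.1
    exact lt_of_lt_of_le (by positivity) this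
  have hs : Ioo (t₀ / 2) (2 * t₀) ∈ 𝓝 t₀ := Ioo_mem_nhds (by linarith) (by linarith)
  have h := hasDerivAt_integral_of_dominated_loc_of_deriv_le (μ := (volume : Measure (Eu k)))
    (F := fun t x => G x * f x t) (F' := fun t x => G x * f' x t)
    (x₀ := t₀) (s := Ioo (t₀ / 2) (2 * t₀)) (bound := fun x => |G x| * C) hs
    (by
      filter_upwards [hs] with t ht
      exact (hG.mul (hf t (by linarith [ht.1]))).aestronglyMeasurable)
    ((hG.mul (hf t₀ ht₀)).integrable_of_hasCompactSupport hGc.mul_right)
    (hG.mul (hf'x t₀ ht₀)).aestronglyMeasurable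
    (Eventually.of_forall fun x t ht => by
      rw [norm_mul, Real.norm_eq_abs]
      by_cases hx : x ∈ tsupport G
      · exact mul_le_mul_of_nonneg_left (hC (x, t) ⟨hx, ht.1.le, ht.2.le⟩) (abs_nonneg _)
      · rw [image_eq_zero_of_notMem_tsupport hx]
        simp)
    ((hG.abs.mul continuous_const).integrable_of_hasCompactSupport
      (hGc.abs.mul_right))
    (Eventually.of_forall fun x t ht => (hd x t (by linarith [ht.1])).const_mul _)
  exact h.2

/-- the formula for compactly supported test functions -/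
theorem formula_cs {h : Eu k → ℝ → ℝ} (hs : Strip h) {G : Eu k → ℝ} (hG : ContDiff ℝ 2 G)
    (hGc : HasCompactSupport G) : ∃ β : ℝ, ∀ t, 0 ≤ t →
      ∫ x, G x * h x t = β * Real.sin t - Du (fun s => ∫ x, lap G x * h x s) t := by
  obtain ⟨ht, htt, c1, c2, d1, d2, he⟩ := hs.eq
  have hlapc : Continuous (lap G) := by
    have e : lap G = fun x => ∑ i : Fin k, iteratedFDeriv ℝ 2 G x
        (fun _ => EuclideanSpace.single i (1 : ℝ)) := rfl
    rw [e]
    refine continuous_finsetSum _ fun i _ => ?_
    have h2 : Continuous (iteratedFDeriv ℝ 2 G) := hG.continuous_iteratedFDeriv (by norm_num)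
    exact (ContinuousMultilinearMap.apply ℝ (fun _ : Fin 2 => Eu k) ℝ
      (fun _ => EuclideanSpace.single i (1 : ℝ))).continuous.comp h2
  have hlaps : HasCompactSupport (lap G) := by
    have h1 : HasCompactSupport (iteratedFDeriv ℝ 2 G) := hGc.iteratedFDeriv 2
    refine h1.mono fun y hy => ?_
    rw [Function.mem_support] at hy ⊢
    intro h0
    apply hy
    unfold lap
    rw [h0]
    simp
  have iG : Integrable G := hG.continuous.integrable_of_hasCompactSupport hGc
  have ilG : Integrable (lap G) := hlapc.integrable_of_hasCompactSupport hlaps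
  have hxc : ∀ t, 0 < t → Continuous fun x => ht x t := by
    intro t h0
    have h1 : Continuous fun x : Eu k => ((x, t) : Eu k × ℝ) := continuous_id.prodMk continuous_const
    exact c1.comp_continuous h1 fun x => h0
  refine ode_sol (Φ' := fun t => ∫ x, G x * ht x t) (hs.cont_F ilG) ?_ ?_
    (hs.cont_F iG).continuousAt ?_
  · intro t h0
    exact hasDerivAt_integral_cs hG.continuous hGc h0 (fun t _ => hs.contx t) c1 d1
  · intro t h0
    have h1 := hasDerivAt_integral_cs hG.continuous hGc h0 hxc c2 d2
    refine h1.congr_deriv ?_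
    have h2 := green hG hGc (hs.smooth t h0)
    have h3 : ∫ x, G x * htt x t = ∫ x, (-(G x * h x t) - G x * lap (fun y => h y t) x) := by
      refine integral_congr_ae (Eventually.of_forall fun x => ?_)
      simp only
      have := he x t h0
      linear_combination G x * this
    rw [h3, integral_sub, integral_neg, h2]
    · exact (hs.int iG t).neg
    · have hc : Continuous fun x => lap (fun y => h y t) x := by
        have e : (fun x => lap (fun y => h y t) x) = fun x => ∑ i : Fin k,
          iteratedFDeriv ℝ 2 (fun y => h y t) x (fun _ => EuclideanSpace.single i (1 : ℝ)) := rfl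
        rw [e]
        refine continuous_finsetSum _ fun i _ => ?_
        have h2 : Continuous (iteratedFDeriv ℝ 2 (fun y => h y t)) :=
          (hs.smooth t h0).continuous_iteratedFDeriv (by norm_num)
        exact (ContinuousMultilinearMap.apply ℝ (fun _ : Fin 2 => Eu k) ℝ
          (fun _ => EuclideanSpace.single i (1 : ℝ))).continuous.comp h2
      exact (hG.continuous.mul hc).integrable_of_hasCompactSupport hGc.mul_right
  · simp [hs.zero _ 0 le_rfl]

end Pool.Agent.R215.HS
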