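import Pool.Agent.R215.HS.Neg

set_option autoImplicit false
open MeasureTheory Filter Topology Set Metric

/-! The boundary functional vanishes. -/

namespace Pool.Agent.R215.HS

open Pool.Agent.H314.Dir

variable {k : ℕ}

/-- expansion: the averages are controlled by `Q` up to an arbitrarily small power -/
theorem expand {h : Eu k → ℝ → ℝ} (hs : Strip h) (hp : Pos h) (c : Eu k) {M : ℝ} (hM0 : 0 ≤ M)
    (hM : ∀ x t, t ≤ 2 * Real.pi → |h x t| ≤ M) (n : ℕ) :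
    ∀ m, k < 2 * m → ∃ C : ℝ, 0 ≤ C ∧ ∀ ρ, 1 ≤ ρ → ∀ t, 0 ≤ t → t ≤ 2 * Real.pi →
      |Fh c h m ρ t| ≤ C * (Qf c h m ρ + ρ⁻¹ ^ n * Yf c m ρ) := by
  induction n with
  | zero =>
    intro m hm
    refine ⟨M, hM0, fun ρ hρ t _ ht => ?_⟩
    have hρ0 : 0 < ρ := by linarith
    have h1 := Fh_abs_le c hm hρ0 (fun x => hM x t ht)
    have h2 := Q_nonneg hs hp c hm hρ0
    rw [pow_zero, one_mul]
    nlinarith
  | succ n ih =>
    intro m hm
    obtain ⟨C1, hC1, h1⟩ := ih (m + 1) (by omega)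
    obtain ⟨C2, hC2, h2⟩ := ih (m + 2) (by omega)
    set C := C1 + C2 with hC
    have hC0 : 0 ≤ C := by positivity
    have hCm := Cm_nonneg k m
    refine ⟨1 + 8 * (Cm k m * C), by positivity, fun ρ hρ t ht0 ht => ?_⟩
    have hρ0 : 0 < ρ := by linarith
    have hpi4 := Real.pi_lt_four
    have hQ := Q_nonneg hs hp c hm hρ0
    have hY := Yf_pos c hρ0 hm
    have hY1 := Yf_pos c hρ0 (show k < 2 * (m + 1) by omega)
    have hQ1 := Q_succ_le hs hp c hm hρ0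
    have hQ2 := Q_succ_le hs hp c (show k < 2 * (m + 1) by omega) hρ0
    have y1 := Yf_succ_le c hρ0 hm
    have y2 := Yf_succ_le c hρ0 (show k < 2 * (m + 1) by omega)
    have hρi : 0 < ρ⁻¹ := by positivity
    have hρi1 : ρ⁻¹ ≤ 1 := inv_le_one_of_one_le₀ hρ
    set P := ρ⁻¹ ^ n with hP
    have hP0 : 0 < P := by positivity
    set A := C * (ρ⁻¹ * (Qf c h m ρ + P * Yf c m ρ)) with hA
    have hS0 : 0 ≤ Qf c h m ρ + P * Yf c m ρ := by positivity
    have hA0 : 0 ≤ A := by positivity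
    have step1 : Qf c h (m + 1) ρ + P * Yf c (m + 1) ρ ≤ ρ⁻¹ * (Qf c h m ρ + P * Yf c m ρ) := by
      have : P * Yf c (m + 1) ρ ≤ P * (ρ⁻¹ * Yf c m ρ) := mul_le_mul_of_nonneg_left y1 hP0.le
      nlinarith
    have step2 : Qf c h (m + 2) ρ + P * Yf c (m + 2) ρ ≤
        ρ⁻¹ * (Qf c h (m + 1) ρ + P * Yf c (m + 1) ρ) := by
      have : P * Yf c (m + 2) ρ ≤ P * (ρ⁻¹ * Yf c (m + 1) ρ) := mul_le_mul_of_nonneg_left y2 hP0.le
      have e : Qf c h (m + 2) ρ = Qf c h (m + 1 + 1) ρ := rfl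
      rw [e]
      nlinarith
    have hLF : ∀ s, 0 ≤ s → s ≤ t → |LF c h m ρ s| ≤ Cm k m * A := by
      intro s hs0 hst
      have b1 := h1 ρ hρ s hs0 (hst.trans ht)
      have b2 := h2 ρ hρ s hs0 (hst.trans ht)
      apply LF_le_of hρ0
      · refine b1.trans ?_
        rw [hA]
        exact mul_le_mul (by rw [hC]; linarith) step1
          (by have := Q_nonneg hs hp c (show k < 2 * (m + 1) by omega) hρ0; positivity) hC0
      · have b3 : |Fh c h (m + 2) ρ s| ≤ C * (ρ⁻¹ * (ρ⁻¹ * (Qf c h m ρ + P * Yf c m ρ))) := by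
          refine b2.trans ?_
          refine mul_le_mul (by rw [hC]; linarith)
            (step2.trans (mul_le_mul_of_nonneg_left step1 hρi.le)) ?_ hC0
          have := Q_nonneg hs hp c (show k < 2 * (m + 2) by omega) hρ0
          have := Yf_pos c hρ0 (show k < 2 * (m + 2) by omega)
          positivity
        calc ρ * |Fh c h (m + 2) ρ s| ≤ ρ * (C * (ρ⁻¹ * (ρ⁻¹ * (Qf c h m ρ + P * Yf c m ρ)))) :=
              mul_le_mul_of_nonneg_left b3 hρ0.le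
          _ = A := by rw [hA]; field_simp
    have hDu := Du_abs_le ht0 hLF
    rw [formulaQ hs c hm hρ0 ht0]
    have hsin := Real.abs_sin_le_one t
    have e1 : |Qf c h m ρ * Real.sin t| ≤ Qf c h m ρ := by
      rw [abs_mul, abs_of_nonneg hQ]
      nlinarith
    have e2 : Cm k m * A * t ≤ 8 * (Cm k m * C) * (Qf c h m ρ + ρ⁻¹ ^ (n + 1) * Yf c m ρ) := by
      have e3 : A ≤ C * (Qf c h m ρ + ρ⁻¹ ^ (n + 1) * Yf c m ρ) := by
        rw [hA, pow_succ]
        apply mul_le_mul_of_nonneg_left _ hC0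
        have : ρ⁻¹ * Qf c h m ρ ≤ Qf c h m ρ := by nlinarith
        nlinarith
      calc Cm k m * A * t ≤ Cm k m * A * 8 :=
            mul_le_mul_of_nonneg_left (by linarith) (by positivity)
        _ ≤ Cm k m * (C * (Qf c h m ρ + ρ⁻¹ ^ (n + 1) * Yf c m ρ)) * 8 := by gcongr
        _ = _ := by ring
    have hlast : 0 ≤ ρ⁻¹ ^ (n + 1) * Yf c m ρ := by positivity
    calc _ ≤ _ := abs_sub _ _
      _ ≤ Qf c h m ρ + Cm k m * A * t := add_le_add e1 hDu
      _ ≤ _ := by nlinarith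

/-- the boundary functional vanishes -/
theorem Q_eq_zero {h : Eu k → ℝ → ℝ} (hs : Strip h) (hp : Pos h) (c : Eu k) {m₀ : ℕ}
    (hm₀ : k < 2 * m₀) (hm1 : 1 ≤ m₀) {ρ₀ : ℝ} (hρ₀ : 0 < ρ₀) : Qf c h (m₀ + 1) ρ₀ = 0 := by
  obtain ⟨M, hM0, hM⟩ := hs.bdd (2 * Real.pi)
  set m := m₀ + 1 with hmd
  have hm : k < 2 * m := by omega
  obtain ⟨C1, hC1, h1⟩ := expand hs hp c hM0 hM m (m + 1) (by omega)
  obtain ⟨C2, hC2, h2⟩ := expand hs hp c hM0 hM m (m + 2) (by omega)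
  set C := C1 + C2 with hC
  have hC0 : 0 ≤ C := by positivity
  have hCm := Cm_nonneg k m
  set K := 64 * (Cm k m * C) with hK
  have hK0 : 0 ≤ K := by positivity
  set Y1 := Yf c m 1 with hY1d
  have hY1p : 0 < Y1 := Yf_pos c one_pos hm
  have hpi := Real.pi_gt_three
  -- the main inequality
  have key : ∀ ρ, 1 ≤ ρ → K ≤ ρ → ρ ^ m * Qf c h m ρ ≤ K * Y1 * ρ⁻¹ := by
    intro ρ hρ hKρ
    have hρ0 : 0 < ρ := by linarith
    have hQ := Q_nonneg hs hp c hm hρ0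
    have hY := Yf_pos c hρ0 hm
    have hQ1 := Q_succ_le hs hp c hm hρ0
    have hQ2 := Q_succ_le hs hp c (show k < 2 * (m + 1) by omega) hρ0
    have y1 := Yf_succ_le c hρ0 hm
    have y2 := Yf_succ_le c hρ0 (show k < 2 * (m + 1) by omega)
    have hY11 := Yf_pos c hρ0 (show k < 2 * (m + 1) by omega)
    have hρi : 0 < ρ⁻¹ := by positivity
    set P := ρ⁻¹ ^ m with hP
    have hP0 : 0 < P := by positivity
    set A := C * (ρ⁻¹ * (Qf c h m ρ + P * Yf c m ρ)) with hA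
    have hA0 : 0 ≤ A := by positivity
    have step1 : Qf c h (m + 1) ρ + P * Yf c (m + 1) ρ ≤ ρ⁻¹ * (Qf c h m ρ + P * Yf c m ρ) := by
      have : P * Yf c (m + 1) ρ ≤ P * (ρ⁻¹ * Yf c m ρ) := mul_le_mul_of_nonneg_left y1 hP0.le
      nlinarith
    have step2 : Qf c h (m + 2) ρ + P * Yf c (m + 2) ρ ≤
        ρ⁻¹ * (Qf c h (m + 1) ρ + P * Yf c (m + 1) ρ) := by
      have : P * Yf c (m + 2) ρ ≤ P * (ρ⁻¹ * Yf c (m + 1) ρ) := mul_le_mul_of_nonneg_left y2 hP0.le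
      have e : Qf c h (m + 2) ρ = Qf c h (m + 1 + 1) ρ := rfl
      rw [e]
      nlinarith
    have hLF : ∀ s, 0 ≤ s → s ≤ 2 * Real.pi → |LF c h m ρ s| ≤ Cm k m * A := by
      intro s hs0 hst
      have b1 := h1 ρ hρ s hs0 hst
      have b2 := h2 ρ hρ s hs0 hst
      apply LF_le_of hρ0
      · refine b1.trans ?_
        rw [hA]
        exact mul_le_mul (by rw [hC]; linarith) step1
          (by have := Q_nonneg hs hp c (show k < 2 * (m + 1) by omega) hρ0; positivity) hC0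
      · have b3 : |Fh c h (m + 2) ρ s| ≤ C * (ρ⁻¹ * (ρ⁻¹ * (Qf c h m ρ + P * Yf c m ρ))) := by
          refine b2.trans ?_
          refine mul_le_mul (by rw [hC]; linarith)
            (step2.trans (mul_le_mul_of_nonneg_left step1 hρi.le)) ?_ hC0
          have := Q_nonneg hs hp c (show k < 2 * (m + 2) by omega) hρ0
          have := Yf_pos c hρ0 (show k < 2 * (m + 2) by omega)
          positivity
        calc ρ * |Fh c h (m + 2) ρ s| ≤ ρ * (C * (ρ⁻¹ * (ρ⁻¹ * (Qf c h m ρ + P * Yf c m ρ)))) :=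
              mul_le_mul_of_nonneg_left b3 hρ0.le
          _ = A := by rw [hA]; field_simp
    have hint := (abs_le.1 (int_sin_Du_le (D := Cm k m * A) (by positivity) hLF)).2
    have hB := Av_Bf_nonpos hs hp c hm₀ hm1 hρ0
    rw [← hmd, Av_Bf_eq hs c hm hρ0] at hB
    -- `π Q ≤ K ρ⁻¹ (Q + P Y)`
    have e1 : 64 * (Cm k m * A) = K * ρ⁻¹ * (Qf c h m ρ + P * Yf c m ρ) := by
      rw [hK, hA]; ring
    have e2 : K * ρ⁻¹ ≤ 1 := by
      rw [← div_eq_mul_inv, div_le_one hρ0]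
      exact hKρ
    have e3 : K * ρ⁻¹ * Qf c h m ρ ≤ 1 * Qf c h m ρ := mul_le_mul_of_nonneg_right e2 hQ
    have e4 : Qf c h m ρ ≤ K * ρ⁻¹ * (P * Yf c m ρ) := by nlinarith
    have e5 : Yf c m ρ ≤ Y1 := Yf_anti c one_pos hρ hm
    have e6 : K * ρ⁻¹ * (P * Yf c m ρ) ≤ K * ρ⁻¹ * (P * Y1) := by gcongr
    have e7 : ρ ^ m * Qf c h m ρ ≤ ρ ^ m * (K * ρ⁻¹ * (P * Y1)) :=
      mul_le_mul_of_nonneg_left (e4.trans e6) (by positivity)
    have e8 : ρ ^ m * (K * ρ⁻¹ * (P * Y1)) = K * Y1 * ρ⁻¹ := by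
      have : ρ ^ m * P = 1 := by
        rw [hP, ← mul_pow, mul_inv_cancel₀ hρ0.ne', one_pow]
      linear_combination (K * ρ⁻¹ * Y1) * this
    rw [e8] at e7
    exact e7
  have hQ0 := Q_nonneg hs hp c hm hρ₀
  by_contra hne
  have hQp : 0 < Qf c h m ρ₀ := lt_of_le_of_ne hQ0 (Ne.symm hne)
  set q := ρ₀ ^ m * Qf c h m ρ₀ with hq
  have hqp : 0 < q := by positivity
  set ρ := 1 + K + ρ₀ + K * Y1 / q with hρd
  have hKq : 0 ≤ K * Y1 / q := by positivity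
  have hρ1 : 1 ≤ ρ := by rw [hρd]; linarith
  have hρK : K ≤ ρ := by rw [hρd]; linarith
  have hρρ : ρ₀ ≤ ρ := by rw [hρd]; linarith
  have hρpos : 0 < ρ := by linarith
  have f1 := key ρ hρ1 hρK
  have f2 := Q_mono hs hp c hm hρ₀ hρρ
  have f3 : q ≤ K * Y1 * ρ⁻¹ := f2.trans f1
  rw [← div_eq_mul_inv, le_div_iff₀ hρpos] at f3
  have f4 : q * (K * Y1 / q) = K * Y1 := by field_simp
  have f5 : q * ρ = q * (1 + K + ρ₀) + K * Y1 := by
    rw [hρd, mul_add, f4]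
  have f6 : 0 < q * (1 + K + ρ₀) := by positivity
  linarith

end Pool.Agent.R215.HS
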