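import Pool.Agent.R215.HS.Zero

set_option autoImplicit false
open MeasureTheory Filter Topology Set Metric

/-! From vanishing averages to vanishing of the function (Weierstrass approximation). -/

namespace Pool.Agent.R215.HS

open Pool.Agent.H314.Dir

variable {k : ℕ}

/-- the variable `y = (ρ + |x - c|²)⁻¹` -/
noncomputable def yv (c : Eu k) (ρ : ℝ) (x : Eu k) : ℝ := (ρ + ‖x - c‖ ^ 2)⁻¹

theorem yv_pos (c : Eu k) {ρ : ℝ} (hρ : 0 < ρ) (x : Eu k) : 0 < yv c ρ x :=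
  inv_pos.2 (base_pos c hρ x)

theorem yv_le (c : Eu k) {ρ : ℝ} (hρ : 0 < ρ) (x : Eu k) : yv c ρ x ≤ ρ⁻¹ := by
  unfold yv
  apply inv_anti₀ hρ
  have := sq_nonneg ‖x - c‖
  linarith

theorem continuous_yv (c : Eu k) {ρ : ℝ} (hρ : 0 < ρ) : Continuous (yv c ρ) := by
  unfold yv
  apply Continuous.inv₀
  · fun_prop
  · intro x
    exact (base_pos c hρ x).ne'

theorem en_add (c : Eu k) (ρ : ℝ) (m j : ℕ) (x : Eu k) :
    en c ρ (m + j) x = en c ρ m x * yv c ρ x ^ j := by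
  unfold en yv
  rw [pow_add, mul_inv, inv_pow]

theorem poly_zero {h : Eu k → ℝ → ℝ} (hs : Strip h) (c : Eu k) {m₁ : ℕ} (hm₁ : k < 2 * m₁)
    {ρ : ℝ} (hρ : 0 < ρ) {t : ℝ} (hF : ∀ m, m₁ ≤ m → Fh c h m ρ t = 0) (p : Polynomial ℝ) :
    ∫ x, en c ρ m₁ x * p.eval (yv c ρ x) * h x t = 0 := by
  have e1 : ∀ x, en c ρ m₁ x * p.eval (yv c ρ x) * h x t =
      ∑ i ∈ Finset.range (p.natDegree + 1), p.coeff i * (en c ρ (m₁ + i) x * h x t) := by
    intro x
    rw [Polynomial.eval_eq_sum_range, Finset.mul_sum, Finset.sum_mul]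
    refine Finset.sum_congr rfl fun i _ => ?_
    rw [en_add]
    ring
  simp only [e1]
  rw [integral_finsetSum]
  · refine Finset.sum_eq_zero fun i _ => ?_
    rw [integral_const_mul, ← Fh_eq, hF (m₁ + i) (by omega), mul_zero]
  · intro i _
    exact (hs.int (integrable_en c hρ (by omega)) t).const_mul _

theorem cont_zero {h : Eu k → ℝ → ℝ} (hs : Strip h) (c : Eu k) {m₁ : ℕ} (hm₁ : k < 2 * m₁)
    {ρ : ℝ} (hρ : 0 < ρ) {t : ℝ} (hF : ∀ m, m₁ ≤ m → Fh c h m ρ t = 0) {φ : ℝ → ℝ}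
    (hφ : Continuous φ) : ∫ x, en c ρ m₁ x * φ (yv c ρ x) * h x t = 0 := by
  obtain ⟨M, hM0, hM⟩ := hs.bdd t
  have hY := Yf_pos c hρ hm₁
  by_contra hne
  set I := ∫ x, en c ρ m₁ x * φ (yv c ρ x) * h x t with hI
  have hIp : 0 < |I| := abs_pos.2 hne
  set ε := |I| / (2 * (M + 1) * Yf c m₁ ρ) with hε
  have hε0 : 0 < ε := by positivity
  obtain ⟨p, hp⟩ := exists_polynomial_near_of_continuousOn 0 ρ⁻¹ φ hφ.continuousOn ε hε0
  have hyc := continuous_yv c hρ
  obtain ⟨B, hB⟩ : ∃ B, ∀ s ∈ Icc (0 : ℝ) ρ⁻¹, ‖φ s‖ ≤ B :=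
    isCompact_Icc.exists_bound_of_continuousOn hφ.continuousOn
  have hmem : ∀ x, yv c ρ x ∈ Icc (0 : ℝ) ρ⁻¹ := fun x => ⟨(yv_pos c hρ x).le, yv_le c hρ x⟩
  have i1 : Integrable (fun x => en c ρ m₁ x * φ (yv c ρ x)) :=
    (integrable_en c hρ hm₁).mul_bdd (c := B) (hφ.comp hyc).aestronglyMeasurable
      (Eventually.of_forall fun x => hB _ (hmem x))
  have i2 : Integrable (fun x => en c ρ m₁ x * p.eval (yv c ρ x)) := by
    obtain ⟨B', hB'⟩ : ∃ B, ∀ s ∈ Icc (0 : ℝ) ρ⁻¹, ‖p.eval s‖ ≤ B :=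
      isCompact_Icc.exists_bound_of_continuousOn p.continuous.continuousOn
    exact (integrable_en c hρ hm₁).mul_bdd (c := B') (p.continuous.comp hyc).aestronglyMeasurable
      (Eventually.of_forall fun x => hB' _ (hmem x))
  have e1 : I = -∫ x, (en c ρ m₁ x * p.eval (yv c ρ x) * h x t -
      en c ρ m₁ x * φ (yv c ρ x) * h x t) := by
    rw [integral_sub (hs.int i2 t) (hs.int i1 t), poly_zero hs c hm₁ hρ hF p]
    simp [hI]
  have e2 : ‖∫ x, (en c ρ m₁ x * p.eval (yv c ρ x) * h x t -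
      en c ρ m₁ x * φ (yv c ρ x) * h x t)‖ ≤ ∫ x, en c ρ m₁ x * (ε * M) := by
    refine norm_integral_le_of_norm_le ((integrable_en c hρ hm₁).mul_const _)
      (Eventually.of_forall fun x => ?_)
    have h1 : en c ρ m₁ x * p.eval (yv c ρ x) * h x t - en c ρ m₁ x * φ (yv c ρ x) * h x t =
        en c ρ m₁ x * ((p.eval (yv c ρ x) - φ (yv c ρ x)) * h x t) := by ring
    rw [h1, norm_mul, norm_mul, Real.norm_of_nonneg (en_pos c hρ m₁ x).le]
    apply mul_le_mul_of_nonneg_left _ (en_pos c hρ m₁ x).le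
    exact mul_le_mul (hp _ (hmem x)).le (hM x t le_rfl) (norm_nonneg _) hε0.le
  rw [integral_mul_const, ← Yf_eq] at e2
  have e3 : |I| ≤ Yf c m₁ ρ * (ε * M) := by
    rw [e1, abs_neg]
    exact e2
  have e4 : Yf c m₁ ρ * (ε * M) ≤ |I| / 2 := by
    rw [hε]
    have h2 : Yf c m₁ ρ * (|I| / (2 * (M + 1) * Yf c m₁ ρ) * M) = |I| / 2 * (M / (M + 1)) := by
      field_simp
    rw [h2]
    have h3 : M / (M + 1) ≤ 1 := by
      rw [div_le_one (by linarith)]
      linarith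
    nlinarith
  linarith

theorem h_zero {h : Eu k → ℝ → ℝ} (hs : Strip h) (c : Eu k) {m₁ : ℕ} (hm₁ : k < 2 * m₁)
    {ρ : ℝ} (hρ : 0 < ρ) {t : ℝ} (hF : ∀ m, m₁ ≤ m → Fh c h m ρ t = 0) : h c t = 0 := by
  by_contra hne
  -- sign
  obtain ⟨σ, hσ⟩ : ∃ σ : ℝ, 0 < σ * h c t := by
    rcases lt_or_gt_of_ne hne with h1 | h1
    · exact ⟨-1, by linarith⟩
    · exact ⟨1, by linarith⟩
  have hc := hs.contx t
  have hcs : Continuous fun x => σ * h x t := continuous_const.mul hc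
  obtain ⟨δ, hδ, hball⟩ : ∃ δ > 0, ∀ x, dist x c < δ → 0 < σ * h x t := by
    have := hcs.continuousAt.eventually_const_lt hσ
    rw [Metric.eventually_nhds_iff] at this
    obtain ⟨δ, hδ, h1⟩ := this
    exact ⟨δ, hδ, fun x hx => h1 hx⟩
  set s0 := (ρ + δ ^ 2)⁻¹ with hs0
  have hs00 : 0 < s0 := by positivity
  set φ : ℝ → ℝ := fun s => max 0 (s - s0) with hφ
  have hφc : Continuous φ := by fun_prop
  have hyc := continuous_yv c hρ
  have hφout : ∀ x, δ ≤ dist x c → φ (yv c ρ x) = 0 := by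
    intro x hx
    apply max_eq_left
    rw [sub_nonpos]
    unfold yv
    rw [hs0]
    apply inv_anti₀ (by positivity)
    rw [dist_eq_norm] at hx
    have := pow_le_pow_left₀ hδ.le hx 2
    linarith
  have h1 := cont_zero hs c hm₁ hρ hF hφc
  have h2 : 0 < ∫ x, en c ρ m₁ x * φ (yv c ρ x) * (σ * h x t) := by
    refine Continuous.integral_pos_of_hasCompactSupport_nonneg_nonzero (x := c) ?_ ?_ ?_ ?_
    · exact ((continuous_en c hρ m₁).mul (hφc.comp hyc)).mul hcs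
    · refine HasCompactSupport.intro (isCompact_closedBall c δ) fun x hx => ?_
      rw [mem_closedBall, not_le] at hx
      rw [hφout x hx.le, mul_zero, zero_mul]
    · intro x
      rcases lt_or_ge (dist x c) δ with hx | hx
      · exact mul_nonneg (mul_nonneg (en_pos c hρ m₁ x).le (le_max_left _ _)) (hball x hx).le
      · simp only [Pi.zero_apply]
        rw [hφout x hx, mul_zero, zero_mul]
    · have h3 : 0 < φ (yv c ρ c) := by
        apply lt_max_of_lt_right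
        unfold yv
        rw [sub_self, norm_zero, hs0, sub_pos]
        apply inv_strictAnti₀ (by positivity)
        have : 0 < δ ^ 2 := by positivity
        linarith
      exact (mul_pos (mul_pos (en_pos c hρ m₁ c) h3) hσ).ne'
  have h3 : ∫ x, en c ρ m₁ x * φ (yv c ρ x) * (σ * h x t) =
      σ * ∫ x, en c ρ m₁ x * φ (yv c ρ x) * h x t := by
    rw [← integral_const_mul]
    refine integral_congr_ae (Eventually.of_forall fun x => ?_)
    simp only
    ring
  rw [h3, h1, mul_zero] at h2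
  exact lt_irrefl _ h2

/-- the Liouville theorem for the difference -/
theorem strip_zero {h : Eu k → ℝ → ℝ} (hs : Strip h) (hp : Pos h) (x : Eu k) (t : ℝ) :
    h x t = 0 := by
  rcases le_or_gt t 0 with ht | ht
  · exact hs.zero x t ht
  set m₁ := k + 2 with hm₁
  have hkm : k < 2 * m₁ := by omega
  set ρ : ℝ := 16 * (8 + 2 * k) * t ^ 2 with hρd
  have hρ : 0 < ρ := by positivity
  have hQ : ∀ m, m₁ ≤ m → Qf x h m ρ = 0 := by
    intro m hm
    obtain ⟨m₀, rfl⟩ : ∃ m₀, m = m₀ + 1 := ⟨m - 1, by omega⟩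
    exact Q_eq_zero hs hp x (by omega) (by omega) hρ
  refine h_zero hs x hkm hρ fun m hm => ?_
  exact F_zero hs x hkm hρ hQ (T := t) le_rfl hm ht.le le_rfl

end Pool.Agent.R215.HS
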