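import Pool.Agent.H314.Dir.Ker
import Pool.Agent.H314.Dir.Lap

set_option autoImplicit false
open MeasureTheory Filter Topology Set Metric

/-! Polynomial weights `(ρ + |x - c|²)^{-m}` and weighted averages (MP_e4c1d4_an). -/

namespace Pool.Agent.R215.HS

open Pool.Agent.H314.Dir

variable {k : ℕ}

/-- the weight -/
noncomputable def en (c : Eu k) (ρ : ℝ) (m : ℕ) (x : Eu k) : ℝ := ((ρ + ‖x - c‖ ^ 2) ^ m)⁻¹

/-- weighted averages -/
noncomputable def Av (c : Eu k) (b : Eu k → ℝ) (m : ℕ) (ρ : ℝ) : ℝ := ∫ x, en c ρ m x * b x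

theorem base_pos (c : Eu k) {ρ : ℝ} (hρ : 0 < ρ) (x : Eu k) : 0 < ρ + ‖x - c‖ ^ 2 := by positivity

theorem en_pos (c : Eu k) {ρ : ℝ} (hρ : 0 < ρ) (m : ℕ) (x : Eu k) : 0 < en c ρ m x := by
  unfold en
  have := base_pos c hρ x
  positivity

theorem en_succ (c : Eu k) (ρ : ℝ) (m : ℕ) (x : Eu k) :
    en c ρ (m + 1) x = (ρ + ‖x - c‖ ^ 2)⁻¹ * en c ρ m x := by
  unfold en
  rw [pow_succ, mul_inv, mul_comm]

theorem en_succ_le (c : Eu k) {ρ : ℝ} (hρ : 0 < ρ) (m : ℕ) (x : Eu k) :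
    en c ρ (m + 1) x ≤ ρ⁻¹ * en c ρ m x := by
  rw [en_succ]
  apply mul_le_mul_of_nonneg_right _ (en_pos c hρ m x).le
  apply inv_anti₀ hρ
  have := sq_nonneg ‖x - c‖
  linarith

theorem en_anti (c : Eu k) {ρ ρ' : ℝ} (hρ : 0 < ρ) (h : ρ ≤ ρ') (m : ℕ) (x : Eu k) :
    en c ρ' m x ≤ en c ρ m x := by
  unfold en
  have := base_pos c hρ x
  apply inv_anti₀ (by positivity)
  apply pow_le_pow_left₀ this.le
  linarith

/-- `ρ^m (ρ + r)^{-m}` increases in `ρ` -/
theorem en_mono (c : Eu k) {ρ ρ' : ℝ} (hρ : 0 < ρ) (h : ρ ≤ ρ') (m : ℕ) (x : Eu k) :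
    ρ ^ m * en c ρ m x ≤ ρ' ^ m * en c ρ' m x := by
  unfold en
  have h1 := base_pos c hρ x
  have h2 := base_pos c (hρ.trans_le h) x
  rw [← inv_pow, ← inv_pow, ← mul_pow, ← mul_pow]
  apply pow_le_pow_left₀ (by positivity)
  rw [← div_eq_mul_inv, ← div_eq_mul_inv, div_le_div_iff₀ h1 h2]
  nlinarith [sq_nonneg ‖x - c‖]

theorem continuous_en (c : Eu k) {ρ : ℝ} (hρ : 0 < ρ) (m : ℕ) : Continuous (en c ρ m) := by
  unfold en
  apply Continuous.inv₀
  · fun_prop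
  · intro x
    have := base_pos c hρ x
    positivity

theorem integrable_en (c : Eu k) {ρ : ℝ} (hρ : 0 < ρ) {m : ℕ} (hm : k < 2 * m) :
    Integrable (en c ρ m) := by
  have h1 : Integrable (fun x : Eu k => (1 + ‖x‖ ^ 2) ^ (-((2 * m : ℕ) : ℝ) / 2)) := by
    apply integrable_rpow_neg_one_add_norm_sq
    rw [finrank_euclideanSpace_fin]
    exact_mod_cast hm
  have h2 : (fun x : Eu k => (1 + ‖x‖ ^ 2) ^ (-((2 * m : ℕ) : ℝ) / 2)) = en 0 1 m := by
    funext x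
    unfold en
    have h3 : (-((2 * m : ℕ) : ℝ) / 2) = -(m : ℝ) := by push_cast; ring
    rw [h3, sub_zero, Real.rpow_neg (by positivity), Real.rpow_natCast]
  rw [h2] at h1
  have h3 : Integrable (en c 1 m) := by
    have := h1.comp_sub_right c
    refine this.congr (Eventually.of_forall fun x => ?_)
    unfold en
    simp
  have h4 : Integrable (fun x => ((min ρ 1) ^ m)⁻¹ * en c 1 m x) := h3.const_mul _
  refine h4.mono' (continuous_en c hρ m).aestronglyMeasurable (Eventually.of_forall fun x => ?_)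
  rw [Real.norm_of_nonneg (en_pos c hρ m x).le]
  unfold en
  have hmin : 0 < min ρ 1 := lt_min hρ one_pos
  rw [← mul_inv, ← mul_pow]
  apply inv_anti₀ (by positivity)
  apply pow_le_pow_left₀ (by positivity)
  have h5 := min_le_left ρ 1
  have h6 := min_le_right ρ 1
  nlinarith [sq_nonneg ‖x - c‖]

theorem integrable_en_mul (c : Eu k) {ρ : ℝ} (hρ : 0 < ρ) {m : ℕ} (hm : k < 2 * m)
    {b : Eu k → ℝ} (hb : Continuous b) {M : ℝ} (hM : ∀ x, |b x| ≤ M) :
    Integrable (fun x => en c ρ m x * b x) :=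
  (integrable_en c hρ hm).mul_bdd (c := M) hb.aestronglyMeasurable (Eventually.of_forall hM)

theorem Av_abs_le (c : Eu k) {ρ : ℝ} (hρ : 0 < ρ) {m : ℕ} (hm : k < 2 * m)
    {b : Eu k → ℝ} {M : ℝ} (hM : ∀ x, |b x| ≤ M) :
    |Av c b m ρ| ≤ M * Av c (fun _ => 1) m ρ := by
  unfold Av
  rw [← integral_const_mul, ← Real.norm_eq_abs]
  refine norm_integral_le_of_norm_le (((integrable_en c hρ hm).mul_const 1).const_mul M)
    (Eventually.of_forall fun x => ?_)
  rw [norm_mul, Real.norm_of_nonneg (en_pos c hρ m x).le, mul_one, mul_comm M]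
  exact mul_le_mul_of_nonneg_left (hM x) (en_pos c hρ m x).le

theorem Av_mono (c : Eu k) {ρ : ℝ} (hρ : 0 < ρ) {m : ℕ} (hm : k < 2 * m)
    {b b' : Eu k → ℝ} (hb : Continuous b) {M : ℝ} (hM : ∀ x, |b x| ≤ M)
    (hb' : Continuous b') (hM' : ∀ x, |b' x| ≤ M) (h : ∀ x, b x ≤ b' x) :
    Av c b m ρ ≤ Av c b' m ρ := by
  unfold Av
  exact integral_mono (integrable_en_mul c hρ hm hb hM) (integrable_en_mul c hρ hm hb' hM')
    fun x => mul_le_mul_of_nonneg_left (h x) (en_pos c hρ m x).le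

/-- total mass -/
noncomputable def Yf (c : Eu k) (m : ℕ) (ρ : ℝ) : ℝ := Av c (fun _ => 1) m ρ

theorem Yf_eq (c : Eu k) (m : ℕ) (ρ : ℝ) : Yf c m ρ = ∫ x, en c ρ m x := by
  unfold Yf Av
  simp

theorem Yf_pos (c : Eu k) {ρ : ℝ} (hρ : 0 < ρ) {m : ℕ} (hm : k < 2 * m) : 0 < Yf c m ρ := by
  rw [Yf_eq]
  apply (integral_pos_iff_support_of_nonneg (fun x => (en_pos c hρ m x).le)
    (integrable_en c hρ hm)).2
  have : Function.support (en c ρ m) = univ := by
    ext x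
    simp [(en_pos c hρ m x).ne']
  rw [this]
  exact isOpen_univ.measure_pos volume univ_nonempty

theorem Yf_succ_le (c : Eu k) {ρ : ℝ} (hρ : 0 < ρ) {m : ℕ} (hm : k < 2 * m) :
    Yf c (m + 1) ρ ≤ ρ⁻¹ * Yf c m ρ := by
  rw [Yf_eq, Yf_eq, ← integral_const_mul]
  exact integral_mono (integrable_en c hρ (by omega)) ((integrable_en c hρ hm).const_mul _)
    fun x => en_succ_le c hρ m x

theorem Yf_anti (c : Eu k) {ρ ρ' : ℝ} (hρ : 0 < ρ) (h : ρ ≤ ρ') {m : ℕ} (hm : k < 2 * m) :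
    Yf c m ρ' ≤ Yf c m ρ := by
  rw [Yf_eq, Yf_eq]
  exact integral_mono (integrable_en c (hρ.trans_le h) hm) (integrable_en c hρ hm)
    fun x => en_anti c hρ h m x

/-- derivative of the weight in `ρ` -/
theorem hasDerivAt_en (c : Eu k) {ρ : ℝ} (hρ : 0 < ρ) (m : ℕ) (x : Eu k) :
    HasDerivAt (fun ρ => en c ρ m x) (-(m * en c ρ (m + 1) x)) ρ := by
  have hb := base_pos c hρ x
  have h1 : HasDerivAt (fun ρ : ℝ => ρ + ‖x - c‖ ^ 2) 1 ρ := (hasDerivAt_id ρ).add_const _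
  have h2 := (h1.pow m).inv (pow_pos hb m).ne'
  have e : -(m * en c ρ (m + 1) x) = -(m * (ρ + ‖x - c‖ ^ 2) ^ (m - 1) * 1) /
      ((ρ + ‖x - c‖ ^ 2) ^ m) ^ 2 := by
    unfold en
    rcases Nat.eq_zero_or_pos m with h | h
    · subst h; simp
    · obtain ⟨n, rfl⟩ : ∃ n, m = n + 1 := ⟨m - 1, by omega⟩
      rw [Nat.add_sub_cancel]
      have h3 : (ρ + ‖x - c‖ ^ 2) ≠ 0 := hb.ne'
      field_simp
      ring
  rw [e]
  exact h2

theorem hasDerivAt_Av (c : Eu k) {ρ : ℝ} (hρ : 0 < ρ) {m : ℕ} (hm : k < 2 * m)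
    {b : Eu k → ℝ} (hb : Continuous b) {M : ℝ} (hM : ∀ x, |b x| ≤ M) :
    HasDerivAt (fun ρ => Av c b m ρ) (-(m * Av c b (m + 1) ρ)) ρ := by
  have hρ2 : 0 < ρ / 2 := by positivity
  have hs : Ioi (ρ / 2) ∈ 𝓝 ρ := Ioi_mem_nhds (by linarith)
  have h := hasDerivAt_integral_of_dominated_loc_of_deriv_le (μ := (volume : Measure (Eu k)))
    (F := fun ρ x => en c ρ m x * b x) (F' := fun ρ x => -(m * en c ρ (m + 1) x) * b x)
    (x₀ := ρ) (s := Ioi (ρ / 2)) (bound := fun x => (m * en c (ρ / 2) (m + 1) x) * M) hs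
    (by
      filter_upwards [hs] with ρ' hρ'
      exact ((continuous_en c (hρ2.trans hρ') m).mul hb).aestronglyMeasurable)
    (integrable_en_mul c hρ hm hb hM)
    (((continuous_const.mul (continuous_en c hρ (m + 1))).neg).mul hb).aestronglyMeasurable
    (Eventually.of_forall fun x ρ' hρ' => by
      rw [norm_mul, norm_neg, norm_mul, Real.norm_of_nonneg (Nat.cast_nonneg m),
        Real.norm_of_nonneg (en_pos c (hρ2.trans hρ') (m + 1) x).le]
      have h1 := en_anti c hρ2 (le_of_lt hρ') (m + 1) x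
      have h2 := en_pos c (hρ2.trans hρ') (m + 1) x
      have h3 := hM x
      rw [Real.norm_eq_abs]
      exact mul_le_mul (mul_le_mul_of_nonneg_left h1 (Nat.cast_nonneg m)) h3 (abs_nonneg _)
        (mul_nonneg (Nat.cast_nonneg m) (en_pos c hρ2 (m + 1) x).le))
    (((integrable_en c hρ2 (by omega)).const_mul _).mul_const _)
    (Eventually.of_forall fun x ρ' hρ' => (hasDerivAt_en c (hρ2.trans hρ') m x).mul_const _)
  have e : -(m * Av c b (m + 1) ρ) = ∫ x, -(m * en c ρ (m + 1) x) * b x := by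
    unfold Av
    rw [← integral_const_mul, ← integral_neg]
    refine integral_congr_ae (Eventually.of_forall fun x => ?_)
    simp only
    ring
  rw [e]
  exact h.2

end Pool.Agent.R215.HS
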