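import Pool.Agent.R215.HS.Vanish

set_option autoImplicit false
open MeasureTheory Filter Topology Set Metric

/-! Solutions with vanishing boundary functional vanish. -/

namespace Pool.Agent.R215.HS

open Pool.Agent.H314.Dir

variable {k : ℕ}

theorem Du_pow {g : ℝ → ℝ} {t D : ℝ} {n : ℕ} (ht : 0 ≤ t)
    (hg : ∀ s, 0 ≤ s → s ≤ t → |g s| ≤ D * s ^ (2 * n)) :
    |Du g t| ≤ D * t ^ (2 * n + 2) / ((2 * n + 1) * (2 * n + 2)) := by
  unfold Du
  have h1 : ‖∫ s in (0 : ℝ)..t, Real.sin (t - s) * g s‖ ≤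
      ∫ s in (0 : ℝ)..t, (t - s) * (D * s ^ (2 * n)) := by
    refine intervalIntegral.norm_integral_le_of_norm_le ht (Eventually.of_forall fun s hs => ?_) ?_
    · rw [norm_mul, Real.norm_eq_abs, Real.norm_eq_abs]
      have h2 : |Real.sin (t - s)| ≤ t - s := by
        have h4 : |Real.sin (t - s)| ≤ |t - s| := Real.abs_sin_le_abs
        rwa [abs_of_nonneg (by linarith [hs.2] : 0 ≤ t - s)] at h4
      exact mul_le_mul h2 (hg s hs.1.le hs.2) (abs_nonneg _) (by linarith [hs.2])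
    · exact (by fun_prop : Continuous fun s : ℝ => (t - s) * (D * s ^ (2 * n))).intervalIntegrable _ _
  have h2 : (∫ s in (0 : ℝ)..t, (t - s) * (D * s ^ (2 * n))) =
      D * t ^ (2 * n + 2) / ((2 * n + 1) * (2 * n + 2)) := by
    have e1 : (∫ s in (0 : ℝ)..t, (t - s) * (D * s ^ (2 * n))) =
        ∫ s in (0 : ℝ)..t, (D * t * s ^ (2 * n) - D * s ^ (2 * n + 1)) := by
      refine intervalIntegral.integral_congr fun s _ => ?_
      ring
    rw [e1, intervalIntegral.integral_sub, intervalIntegral.integral_const_mul,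
      intervalIntegral.integral_const_mul, integral_pow, integral_pow]
    · have h3 : ((2 * n : ℕ) : ℝ) + 1 ≠ 0 := by positivity
      have h4 : ((2 * n + 1 : ℕ) : ℝ) + 1 ≠ 0 := by positivity
      push_cast at h3 h4 ⊢
      have h5 : (2 * (n : ℝ) + 1) ≠ 0 := h3
      have h6 : (2 * (n : ℝ) + 2) ≠ 0 := by positivity
      have h7 : (2 * (n : ℝ) + 1 + 1) ≠ 0 := h4
      field_simp
      ring
    · exact (by fun_prop : Continuous fun s : ℝ => D * t * s ^ (2 * n)).intervalIntegrable _ _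
    · exact (by fun_prop : Continuous fun s : ℝ => D * s ^ (2 * n + 1)).intervalIntegrable _ _
  rw [h2] at h1
  exact h1

/-- growth coefficients -/
noncomputable def bn (n m : ℕ) : ℝ := ((m + 2 * n).factorial : ℝ) / (m.factorial : ℝ)

theorem bn_pos (n m : ℕ) : 0 < bn n m := by unfold bn; positivity

theorem bn_one (n m : ℕ) : bn (n + 1) m = (m + 2 * n + 2) * (m + 1) * bn n (m + 1) := by
  unfold bn
  have e1 : m + 2 * (n + 1) = (m + 1 + 2 * n) + 1 := by ring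
  rw [e1, Nat.factorial_succ, Nat.factorial_succ m]
  push_cast
  have : (m.factorial : ℝ) ≠ 0 := by positivity
  field_simp
  ring

theorem bn_two (n m : ℕ) : bn (n + 1) m = (m + 1) * (m + 2) * bn n (m + 2) := by
  unfold bn
  have e1 : m + 2 * (n + 1) = m + 2 + 2 * n := by ring
  rw [e1, Nat.factorial_succ (m + 1), Nat.factorial_succ m]
  push_cast
  have : (m.factorial : ℝ) ≠ 0 := by positivity
  field_simp
  ring

theorem bn_rec (k n m : ℕ) : 2 * m * (2 * m + 2 + k) * bn n (m + 1) +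
    4 * m * (m + 1) * bn n (m + 2) ≤ (8 + 2 * k) * bn (n + 1) m := by
  have h1 := bn_one n m
  have h2 := bn_two n m
  have p1 := bn_pos n (m + 1)
  have p2 := bn_pos n (m + 2)
  have hm : (0 : ℝ) ≤ m := Nat.cast_nonneg m
  have hn : (0 : ℝ) ≤ n := Nat.cast_nonneg n
  have hk : (0 : ℝ) ≤ k := Nat.cast_nonneg k
  have e1 : 2 * (m : ℝ) * (2 * m + 2 + k) * bn n (m + 1) ≤ (4 + 2 * k) * bn (n + 1) m := by
    rw [h1]
    have : 2 * (m : ℝ) * (2 * m + 2 + k) ≤ (4 + 2 * k) * ((m + 2 * n + 2) * (m + 1)) := by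
      nlinarith [mul_nonneg hm hn, mul_nonneg hm hk, mul_nonneg hn hk,
        mul_nonneg (mul_nonneg hm hn) hk, mul_nonneg (mul_nonneg hm hm) hk]
    calc 2 * (m : ℝ) * (2 * m + 2 + k) * bn n (m + 1)
        ≤ (4 + 2 * k) * ((m + 2 * n + 2) * (m + 1)) * bn n (m + 1) :=
          mul_le_mul_of_nonneg_right this p1.le
      _ = _ := by ring
  have e2 : 4 * (m : ℝ) * (m + 1) * bn n (m + 2) ≤ 4 * bn (n + 1) m := by
    rw [h2]
    have : 4 * (m : ℝ) * (m + 1) ≤ 4 * ((m + 1) * (m + 2)) := by nlinarith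
    calc 4 * (m : ℝ) * (m + 1) * bn n (m + 2) ≤ 4 * ((m + 1) * (m + 2)) * bn n (m + 2) :=
          mul_le_mul_of_nonneg_right this p2.le
      _ = _ := by ring
  linarith

theorem F_bound {h : Eu k → ℝ → ℝ} (hs : Strip h) (c : Eu k) {m₁ : ℕ} (hm₁ : k < 2 * m₁)
    {ρ : ℝ} (hρ : 0 < ρ) (hQ : ∀ m, m₁ ≤ m → Qf c h m ρ = 0) {T M : ℝ} (hM0 : 0 ≤ M)
    (hM : ∀ x t, t ≤ T → |h x t| ≤ M) (n : ℕ) :
    ∀ m, m₁ ≤ m → ∀ t, 0 ≤ t → t ≤ T → |Fh c h m ρ t| ≤
      M * Yf c m ρ * ((8 + 2 * k) * ρ⁻¹) ^ n * (bn n m / ((2 * n).factorial : ℝ)) * t ^ (2 * n) := by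
  induction n with
  | zero =>
    intro m hm t _ ht
    have h1 := Fh_abs_le c (show k < 2 * m by omega) hρ (fun x => hM x t ht)
    have h2 : bn 0 m / ((2 * 0).factorial : ℝ) = 1 := by
      unfold bn
      have h3 : (m.factorial : ℝ) ≠ 0 := by positivity
      simp [h3]
    rw [h2]
    simpa using h1
  | succ n ih =>
    intro m hm t ht0 ht
    have hm' : k < 2 * m := by omega
    have hY := Yf_pos c hρ hm'
    have hY1 := Yf_pos c hρ (show k < 2 * (m + 1) by omega)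
    have hY2 := Yf_pos c hρ (show k < 2 * (m + 2) by omega)
    have y1 := Yf_succ_le c hρ hm'
    have y2 := Yf_succ_le c hρ (show k < 2 * (m + 1) by omega)
    have hρi : 0 < ρ⁻¹ := by positivity
    set κ := ((8 + 2 * k) * ρ⁻¹) ^ n with hκ
    have hκ0 : 0 ≤ κ := by positivity
    have hf : (0 : ℝ) < ((2 * n).factorial : ℝ) := by positivity
    set D := M * Yf c m ρ * κ * ρ⁻¹ * ((8 + 2 * k) * bn (n + 1) m) / ((2 * n).factorial : ℝ) with hD
    have hLF : ∀ s, 0 ≤ s → s ≤ t → |LF c h m ρ s| ≤ D * s ^ (2 * n) := by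
      intro s hs0 hst
      have b1 := ih (m + 1) (by omega) s hs0 (hst.trans ht)
      have b2 := ih (m + 2) (by omega) s hs0 (hst.trans ht)
      have hm0 : (0 : ℝ) ≤ m := Nat.cast_nonneg m
      have hk0 : (0 : ℝ) ≤ k := Nat.cast_nonneg k
      have p1 := bn_pos n (m + 1)
      have p2 := bn_pos n (m + 2)
      set w := s ^ (2 * n) / ((2 * n).factorial : ℝ) with hw
      have hw0 : 0 ≤ w := by positivity
      have c1 : |Fh c h (m + 1) ρ s| ≤ M * (ρ⁻¹ * Yf c m ρ) * κ * bn n (m + 1) * w := by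
        refine b1.trans ?_
        calc M * Yf c (m + 1) ρ * κ * (bn n (m + 1) / ((2 * n).factorial : ℝ)) * s ^ (2 * n)
            = M * Yf c (m + 1) ρ * κ * bn n (m + 1) * w := by rw [hw]; ring
          _ ≤ _ := by gcongr
      have c2 : |Fh c h (m + 2) ρ s| ≤ M * (ρ⁻¹ * (ρ⁻¹ * Yf c m ρ)) * κ * bn n (m + 2) * w := by
        refine b2.trans ?_
        calc M * Yf c (m + 2) ρ * κ * (bn n (m + 2) / ((2 * n).factorial : ℝ)) * s ^ (2 * n)
            = M * Yf c (m + 2) ρ * κ * bn n (m + 2) * w := by rw [hw]; ring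
          _ ≤ M * (ρ⁻¹ * Yf c (m + 1) ρ) * κ * bn n (m + 2) * w := by gcongr
          _ ≤ _ := by gcongr
      unfold LF
      have e1 : |2 * (m : ℝ) * (2 * m + 2 - k) * Fh c h (m + 1) ρ s| ≤
          2 * m * (2 * m + 2 + k) * (M * (ρ⁻¹ * Yf c m ρ) * κ * bn n (m + 1) * w) := by
        rw [abs_mul, abs_mul, abs_of_nonneg (by positivity : 0 ≤ 2 * (m : ℝ))]
        have h3 : |2 * (m : ℝ) + 2 - k| ≤ 2 * m + 2 + k := by
          rw [abs_le]; constructor <;> linarith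
        exact mul_le_mul (mul_le_mul_of_nonneg_left h3 (by positivity)) c1 (abs_nonneg _)
          (by positivity)
      have e2 : |4 * (m : ℝ) * (m + 1) * ρ * Fh c h (m + 2) ρ s| ≤
          4 * m * (m + 1) * (M * (ρ⁻¹ * Yf c m ρ) * κ * bn n (m + 2) * w) := by
        rw [abs_mul, abs_of_nonneg (by positivity : 0 ≤ 4 * (m : ℝ) * (m + 1) * ρ)]
        calc 4 * (m : ℝ) * (m + 1) * ρ * |Fh c h (m + 2) ρ s|
            ≤ 4 * (m : ℝ) * (m + 1) * ρ *
              (M * (ρ⁻¹ * (ρ⁻¹ * Yf c m ρ)) * κ * bn n (m + 2) * w) :=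
              mul_le_mul_of_nonneg_left c2 (by positivity)
          _ = _ := by field_simp
      have e3 := bn_rec k n m
      calc _ ≤ _ := abs_sub _ _
        _ ≤ _ := add_le_add e1 e2
        _ = (M * (ρ⁻¹ * Yf c m ρ) * κ * w) * (2 * m * (2 * m + 2 + k) * bn n (m + 1) +
              4 * m * (m + 1) * bn n (m + 2)) := by ring
        _ ≤ (M * (ρ⁻¹ * Yf c m ρ) * κ * w) * ((8 + 2 * k) * bn (n + 1) m) :=
              mul_le_mul_of_nonneg_left e3 (by positivity)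
        _ = D * s ^ (2 * n) := by rw [hD, hw]; ring
    have h1 := Du_pow ht0 hLF
    rw [formulaQ hs c hm' hρ ht0, hQ m hm, zero_mul, zero_sub, abs_neg]
    refine h1.trans (le_of_eq ?_)
    have e4 : ((2 * (n + 1)).factorial : ℝ) = (2 * n + 1) * (2 * n + 2) * ((2 * n).factorial : ℝ) := by
      have : 2 * (n + 1) = 2 * n + 1 + 1 := by ring
      rw [this, Nat.factorial_succ, Nat.factorial_succ]
      push_cast
      ring
    have e5 : ((8 + 2 * (k : ℝ)) * ρ⁻¹) ^ (n + 1) = κ * ((8 + 2 * k) * ρ⁻¹) := pow_succ _ _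
    rw [e4, e5, hD, show 2 * (n + 1) = 2 * n + 2 by ring]
    have h5 : (2 * (n : ℝ) + 1) ≠ 0 := by positivity
    have h6 : (2 * (n : ℝ) + 2) ≠ 0 := by positivity
    field_simp

theorem bn_le (n m : ℕ) : bn n m / ((2 * n).factorial : ℝ) ≤ 2 ^ m * 4 ^ n := by
  have h1 : bn n m / ((2 * n).factorial : ℝ) = ((m + 2 * n).choose (2 * n) : ℝ) := by
    have h2 := Nat.add_choose_mul_factorial_mul_factorial m (2 * n)
    have h3 : (((m + 2 * n).choose (2 * n) : ℕ) : ℝ) * (m.factorial : ℝ) *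
        ((2 * n).factorial : ℝ) = ((m + 2 * n).factorial : ℝ) := by exact_mod_cast h2
    unfold bn
    rw [← h3]
    have h4 : (m.factorial : ℝ) ≠ 0 := by positivity
    have h5 : ((2 * n).factorial : ℝ) ≠ 0 := by positivity
    field_simp
  rw [h1]
  have h2 : (m + 2 * n).choose (2 * n) ≤ 2 ^ (m + 2 * n) := Nat.choose_le_two_pow _ _
  have h3 : (((m + 2 * n).choose (2 * n) : ℕ) : ℝ) ≤ 2 ^ (m + 2 * n) := by exact_mod_cast h2
  refine h3.trans (le_of_eq ?_)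
  rw [pow_add, pow_mul]
  norm_num

/-- the averages vanish for large `ρ` -/
theorem F_zero {h : Eu k → ℝ → ℝ} (hs : Strip h) (c : Eu k) {m₁ : ℕ} (hm₁ : k < 2 * m₁)
    {ρ : ℝ} (hρ : 0 < ρ) (hQ : ∀ m, m₁ ≤ m → Qf c h m ρ = 0) {T : ℝ}
    (hT : 16 * (8 + 2 * k) * T ^ 2 ≤ ρ) {m : ℕ} (hm : m₁ ≤ m) {t : ℝ} (ht0 : 0 ≤ t) (ht : t ≤ T) :
    Fh c h m ρ t = 0 := by
  obtain ⟨M, hM0, hM⟩ := hs.bdd T
  have hY := Yf_pos c hρ (show k < 2 * m by omega)
  have key : ∀ n : ℕ, |Fh c h m ρ t| ≤ M * Yf c m ρ * 2 ^ m * (1 / 4) ^ n := by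
    intro n
    refine (F_bound hs c hm₁ hρ hQ hM0 hM n m hm t ht0 ht).trans ?_
    have h1 := bn_le n m
    have h2 : 4 * ((8 + 2 * k) * ρ⁻¹ * t ^ 2) ≤ 1 / 4 := by
      have h3 : t ^ 2 ≤ T ^ 2 := pow_le_pow_left₀ ht0 ht 2
      have h4 : 16 * (8 + 2 * (k : ℝ)) * t ^ 2 ≤ ρ := by
        refine le_trans ?_ hT
        apply mul_le_mul_of_nonneg_left h3 (by positivity)
      have h5 : 4 * ((8 + 2 * (k : ℝ)) * ρ⁻¹ * t ^ 2) = (16 * (8 + 2 * k) * t ^ 2) / ρ / 4 := by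
        field_simp
        ring
      rw [h5]
      have h6 : (16 * (8 + 2 * (k : ℝ)) * t ^ 2) / ρ ≤ 1 := by
        rw [div_le_one hρ]; exact h4
      linarith
    have h0 : 0 ≤ 4 * ((8 + 2 * (k : ℝ)) * ρ⁻¹ * t ^ 2) := by positivity
    calc M * Yf c m ρ * ((8 + 2 * k) * ρ⁻¹) ^ n * (bn n m / ((2 * n).factorial : ℝ)) * t ^ (2 * n)
        ≤ M * Yf c m ρ * ((8 + 2 * k) * ρ⁻¹) ^ n * (2 ^ m * 4 ^ n) * t ^ (2 * n) := by gcongr
      _ = M * Yf c m ρ * 2 ^ m * (4 * ((8 + 2 * k) * ρ⁻¹ * t ^ 2)) ^ n := by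
          rw [pow_mul]
          generalize (8 + 2 * (k : ℝ)) * ρ⁻¹ = a
          rw [mul_pow 4, mul_pow a]
          ring
      _ ≤ M * Yf c m ρ * 2 ^ m * (1 / 4) ^ n := by gcongr
  have hlim : Tendsto (fun n : ℕ => M * Yf c m ρ * 2 ^ m * (1 / 4 : ℝ) ^ n) atTop (𝓝 0) := by
    have := (tendsto_pow_atTop_nhds_zero_of_lt_one (by norm_num : (0 : ℝ) ≤ 1 / 4)
      (by norm_num : (1 / 4 : ℝ) < 1)).const_mul (M * Yf c m ρ * 2 ^ m)
    simpa using this
  have h1 : |Fh c h m ρ t| ≤ 0 := ge_of_tendsto' hlim key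
  exact abs_nonpos_iff.1 h1

end Pool.Agent.R215.HS
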